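import Pool.Agent.N190.JL.Top

/-!
# The exponential of the lowering operator
-/

open CategoryTheory AlgebraicGeometry Finset
open IsNilpotent (exp exp_eq_sum)

universe u v

namespace Pool.Agent.N190.JL

open Pool.Agent.H914 Pool.Agent.N190.Opp VarClass Obj WeilCohomology Pool.Agent.W498.Dom

section Ring

variable {K : Type*} [Field K] [CharZero K] {V : Type*} [AddCommGroup V] [Module K V]

omit [CharZero K] in
lemma pow_mul_bk {F a b c : Module.End K V} (hb : F * a = a * F + b) (hc : F * b = b * F + c)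
    (h3 : F * c = c * F) (m : ℕ) :
    F ^ m * a = a * F ^ m + (m : K) • (b * F ^ (m - 1)) +
      ((m.choose 2 : ℕ) : K) • (c * F ^ (m - 2)) := by
  induction m with
  | zero => simp
  | succ m ih =>
    rw [pow_succ', mul_assoc, ih, mul_add, mul_add, ← mul_assoc F a, hb, mul_smul_comm,
      ← mul_assoc F b, hc, mul_smul_comm, ← mul_assoc F c, h3, Nat.choose_succ_succ' m 1,
      Nat.choose_one_right]
    have e1 : (m : K) • ((b * F + c) * F ^ (m - 1)) =
        (m : K) • (b * F ^ m) + (m : K) • (c * F ^ (m - 1)) := by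
      rcases Nat.eq_zero_or_pos m with rfl | hm
      · simp
      · have : F * F ^ (m - 1) = F ^ m := by rw [← pow_succ']; congr 1; omega
        rw [add_mul, mul_assoc, this, smul_add]
    have e2 : ((m.choose 2 : ℕ) : K) • (c * F * F ^ (m - 2)) =
        ((m.choose 2 : ℕ) : K) • (c * F ^ (m - 1)) := by
      by_cases hm : 2 ≤ m
      · have : F * F ^ (m - 2) = F ^ (m - 1) := by rw [← pow_succ']; congr 1; omega
        rw [mul_assoc, this]
      · rw [Nat.choose_eq_zero_of_lt (by omega)]; simp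
    rw [e1, e2, show m + 1 - 1 = m by omega, show m + 1 - 2 = m - 1 by omega, add_mul, mul_assoc]
    push_cast
    module

section

variable [Module ℚ V]

omit [CharZero K] in
lemma rat_smul (r : ℚ) (x : Module.End K V) : r • x = (r : K) • x := by
  apply LinearMap.ext
  intro v
  rw [LinearMap.smul_apply, LinearMap.smul_apply]
  have := map_ratCast_smul (AddMonoidHom.id V) ℚ K r (x v)
  simpa using this

/-- Conjugation by the exponential of a nilpotent operator whose adjoint action has cube zero. -/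
lemma exp_mul_bk {F a b c : Module.End K V} (hF : IsNilpotent F) (hb : F * a = a * F + b)
    (hc : F * b = b * F + c) (h3 : F * c = c * F) :
    exp F * a = (a + b + (2⁻¹ : K) • c) * exp F := by
  obtain ⟨N, hN⟩ := hF
  have hN1 : F ^ (N + 1) = 0 := by rw [pow_succ, hN, zero_mul]
  have hN2 : F ^ (N + 1 + 1) = 0 := by rw [pow_succ, hN1, zero_mul]
  have q : ∀ (r : ℚ) (x : Module.End K V), r • x = (r : K) • x := rat_smul
  have k1 : exp F * a = ∑ m ∈ range (N + 1 + 1), (((m.factorial : K))⁻¹) • (a * F ^ m) +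
      ∑ m ∈ range (N + 1 + 1), ((m.factorial : K)⁻¹) • ((m : K) • (b * F ^ (m - 1))) +
      ∑ m ∈ range (N + 1 + 1), ((m.factorial : K)⁻¹) •
        (((m.choose 2 : ℕ) : K) • (c * F ^ (m - 2))) := by
    rw [exp_eq_sum hN2, Finset.sum_mul, ← Finset.sum_add_distrib, ← Finset.sum_add_distrib]
    apply Finset.sum_congr rfl
    intro m _
    rw [smul_mul_assoc, pow_mul_bk hb hc h3, q, smul_add, smul_add]
    push_cast
    rfl
  have k2 : ∑ m ∈ range (N + 1 + 1), (((m.factorial : K))⁻¹) • (a * F ^ m) = a * exp F := by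
    rw [exp_eq_sum hN2, Finset.mul_sum]
    apply Finset.sum_congr rfl
    intro m _
    rw [q, mul_smul_comm]
    push_cast
    rfl
  have k3 : ∑ m ∈ range (N + 1 + 1), ((m.factorial : K)⁻¹) • ((m : K) • (b * F ^ (m - 1))) =
      b * exp F := by
    rw [Finset.sum_range_succ', exp_eq_sum hN1, Finset.mul_sum]
    simp only [Nat.cast_zero, zero_smul, smul_zero, add_zero]
    apply Finset.sum_congr rfl
    intro m _
    rw [q, mul_smul_comm, smul_smul, Nat.add_sub_cancel]
    congr 1
    rw [Nat.factorial_succ]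
    push_cast
    have h1 : ((m : K) + 1) ≠ 0 := by exact_mod_cast Nat.succ_ne_zero m
    have h2 : (m.factorial : K) ≠ 0 := by exact_mod_cast Nat.factorial_ne_zero m
    field_simp
  have k4 : ∑ m ∈ range (N + 1 + 1), ((m.factorial : K)⁻¹) •
        (((m.choose 2 : ℕ) : K) • (c * F ^ (m - 2))) = (2⁻¹ : K) • (c * exp F) := by
    rw [Finset.sum_range_succ', Finset.sum_range_succ', exp_eq_sum hN, Finset.mul_sum,
      Finset.smul_sum]
    simp only [Nat.choose_zero_succ, Nat.cast_zero, zero_smul, smul_zero, add_zero, zero_add]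
    rw [show (Nat.choose 1 2 : ℕ) = 0 from rfl]
    simp only [Nat.cast_zero, zero_smul, smul_zero, add_zero]
    apply Finset.sum_congr rfl
    intro m _
    rw [q, mul_smul_comm, smul_smul, smul_smul, show m + 1 + 1 - 2 = m by omega]
    congr 1
    have h4 : (((m + 1 + 1).choose 2 : ℕ) : K) = (m + 2) * (m + 1) / 2 := by
      rw [Nat.cast_choose_two]
      push_cast; ring
    rw [h4, Nat.factorial_succ, Nat.factorial_succ]
    push_cast
    have h1 : ((m : K) + 1) ≠ 0 := by exact_mod_cast Nat.succ_ne_zero m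
    have h2 : (m.factorial : K) ≠ 0 := by exact_mod_cast Nat.factorial_ne_zero m
    have h5 : ((m : K) + 1 + 1) ≠ 0 := by exact_mod_cast Nat.succ_ne_zero (m + 1)
    field_simp
    ring
  rw [k1, k2, k3, k4, add_mul, add_mul, smul_mul_assoc]

end

end Ring

variable {k : Type u} [Field k] {𝒱 : VarClass k} {ops : CycleOps 𝒱}
  {W : WeilCohomology.{u, v} ops} {X Y : 𝒱.Obj} {D : X.Cycles}
  {g : Submodule W.K (Module.End W.K (W.H X))}

/-- Rational scalars. -/
@[reducible] noncomputable def ratModule (W : WeilCohomology.{u, v} ops) (X : 𝒱.Obj) :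
    Module ℚ (W.H X) := Module.compHom (W.H X) (algebraMap ℚ W.K)

attribute [local instance] ratModule

lemma bk_cube (hg : IsJordanLefschetz W X D g) {f : Module.End W.K (W.H X)}
    (hf : f ∈ part W X g (-2)) {a : Module.End W.K (W.H X)} (ha : a ∈ g) :
    bk f (bk f (bk f a)) = 0 := by
  obtain ⟨f', hf', z, hz, e, he, hf2, hz2, ⟨x, hx, hex⟩, hsum⟩ := hg.split a ha
  have he2 : IsHom (W.gr X) 2 e := by rw [hex]; exact isHom_cup hx
  have h1 : bk f f' = 0 := lie_neg_neg hg hf ⟨hf', hf2⟩
  have h2 : bk f (bk f z) = 0 := by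
    apply lie_neg_neg hg hf
    have := part_lie hg hf (show z ∈ part W X g 0 from ⟨hz, hz2⟩)
    norm_num at this
    exact this
  have h3 : bk f (bk f (bk f e)) = 0 := by
    apply lie_neg_neg hg hf
    have := part_lie hg hf (part_lie hg hf (show e ∈ part W X g 2 from ⟨he, he2⟩))
    norm_num at this
    exact this
  rw [hsum, bk_add, bk_add, bk_add, bk_add, bk_add, bk_add, h1, bk_zero, bk_zero, h2, h3, bk_zero,
    add_zero, add_zero]

lemma exp_conj_mem (hg : IsJordanLefschetz W X D g) {f : Module.End W.K (W.H X)}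
    (hf : f ∈ part W X g (-2)) (hn : IsNilpotent f) {a : Module.End W.K (W.H X)} (ha : a ∈ g) :
    exp f * a * exp (-f) ∈ g := by
  have h1 : exp f * a = (a + bk f a + (2⁻¹ : W.K) • bk f (bk f a)) * exp f := by
    apply exp_mul_bk hn
    · rw [bk_def]; abel
    · rw [bk_def f (bk f a)]; abel
    · have := bk_cube hg hf ha
      rw [bk_def f (bk f (bk f a))] at this
      exact sub_eq_zero.1 this
  rw [h1, mul_assoc, IsNilpotent.exp_mul_exp_neg_self hn, mul_one]
  have m1 : bk f a ∈ g := lie_mem hg hf.1 ha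
  exact Submodule.add_mem _ (Submodule.add_mem _ ha m1)
    (Submodule.smul_mem _ _ (lie_mem hg hf.1 m1))

lemma exp_mix {f : Module.End W.K (W.H X)} (hf : f ∈ KMix W X X) (hn : IsNilpotent f) :
    exp f ∈ KMix W X X := by
  obtain ⟨N, hN⟩ := hn
  rw [exp_eq_sum hN]
  apply Submodule.sum_mem
  intro m _
  rw [show (((m.factorial : ℚ)⁻¹ : ℚ) • f ^ m : Module.End W.K (W.H X)) =
    ((((m.factorial : ℚ)⁻¹ : ℚ)) : W.K) • f ^ m from rat_smul _ _]
  exact Submodule.smul_mem _ _ (KMix.pow hf m)

lemma exp_rank {f : Module.End W.K (W.H X)} (hf : IsHom (W.gr X) (-2) f)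
    (hr : NonzeroRank W X X (f ^ X.dim)) (hn : IsNilpotent f) :
    NonzeroRank W X X (exp f) := by
  intro x hx h0
  obtain ⟨N, hN⟩ := hn
  have hN' : f ^ (N + X.dim + 1) = 0 := by
    rw [show N + X.dim + 1 = N + (X.dim + 1) by ring, pow_add, hN, zero_mul]
  rw [exp_eq_sum hN', LinearMap.sum_apply, map_sum, Finset.sum_eq_single X.dim] at h0
  · rw [show (((X.dim.factorial : ℚ)⁻¹ : ℚ) • f ^ X.dim : Module.End W.K (W.H X)) =
      ((((X.dim.factorial : ℚ)⁻¹ : ℚ)) : W.K) • f ^ X.dim from rat_smul _ _,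
      LinearMap.smul_apply, map_smul] at h0
    rcases smul_eq_zero.1 h0 with h1 | h1
    · exfalso
      have h2 : ((X.dim.factorial : ℚ)⁻¹ : ℚ) = 0 := by exact_mod_cast h1
      exact Nat.factorial_ne_zero X.dim (by exact_mod_cast inv_eq_zero.1 h2)
    · exact hr x hx h1
  · intro m _ hm
    rw [show (((m.factorial : ℚ)⁻¹ : ℚ) • f ^ m : Module.End W.K (W.H X)) =
      ((((m.factorial : ℚ)⁻¹ : ℚ)) : W.K) • f ^ m from rat_smul _ _,
      LinearMap.smul_apply, map_smul]
    have h1 : proj (W.isInternal X) 0 ((f ^ m) x) = 0 := by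
      rcases lt_or_gt_of_ne hm with h3 | h3
      · exact proj_ne _ (hom_mem (j := 2 * X.dim - 2 * m) (hf.pow m) hx
          (by push_cast; omega)) (by omega)
      · rw [hom_zero (hf.pow m) hx (Or.inl (by push_cast; omega)), map_zero]
    rw [h1, smul_zero]
  · intro h; exact absurd (Finset.mem_range.2 (by omega)) h

/-- **The conjecture gives a Lie autoequivalence of non-zero rank.** -/
theorem exists_equiv (hg : IsJordanLefschetz W X D g) (hD : X.IsCyc 1 D)
    (hHL : HardLefschetz W X D) (hB : LefschetzB W X D) :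
    ∃ u v, IsLieEquivalence W X X g g u v := by
  obtain ⟨F, hF, t⟩ := exists_element hg hD hHL hB
  have hn : IsNilpotent F := t.nil_f
  have hn' : IsNilpotent (-F) := hn.neg
  have hk : F ∈ KMix W X X := alg_mix hF.1
  have hp := alg_part hF
  have hp' : -F ∈ part W X g (-2) := Submodule.neg_mem _ hp
  have r1 := rank_lower t hF.2
  have r2 : NonzeroRank W X X ((-F) ^ X.dim) := by
    intro x hx h0
    have h : -F = (-1 : W.K) • F := (neg_one_smul _ _).symm
    rw [h, smul_pow, LinearMap.smul_apply, map_smul] at h0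
    rcases smul_eq_zero.1 h0 with h1 | h1
    · exact absurd h1 (pow_ne_zero _ (neg_ne_zero.2 one_ne_zero))
    · exact r1 x hx h1
  refine ⟨exp F, exp (-F), exists_mixed (exp_mix hk hn),
    exists_mixed (exp_mix (Submodule.neg_mem _ hk) hn'), ?_, ?_, ?_, ?_, ?_, ?_⟩
  · exact IsNilpotent.exp_neg_mul_exp_self hn
  · exact IsNilpotent.exp_mul_exp_neg_self hn
  · intro a ha
    exact exp_conj_mem hg hp hn ha
  · intro a ha
    have := exp_conj_mem hg hp' hn' ha
    rwa [neg_neg] at this
  · exact exp_rank hF.2 r1 hn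
  · exact exp_rank hp'.2 r2 hn'

end Pool.Agent.N190.JL
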