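import Pool.Agent.N190.JL.Stm
import Pool.Agent.N190.JL.Exp

/-!
# Varieties of Jordan-Lefschetz type: the theorem
-/

open CategoryTheory AlgebraicGeometry Finset

universe u v

namespace Pool.Agent.N190.JLS

open Pool.Agent.H914 Pool.Agent.N190.Opp VarClass Obj WeilCohomology

variable {k : Type u} [Field k] {𝒱 : VarClass k} {ops : CycleOps 𝒱}
  {W : WeilCohomology.{u, v} ops} {X Y : 𝒱.Obj} {D : X.Cycles} {g : Set (Mp W X X)}

/-- The Lie algebra as a subspace. -/
def gs (hg : IsJordanLefschetz W X D g) : Submodule W.K (Module.End W.K (W.H X)) where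
  carrier := g
  add_mem' := fun {a b} ha hb => hg.graded.add a ha b hb
  zero_mem' := by
    have h := hg.graded.smul 0 _ hg.lef
    rwa [zero_smul] at h
  smul_mem' := fun c a ha => hg.graded.smul c a ha

lemma mem_gs (hg : IsJordanLefschetz W X D g) {a : Module.End W.K (W.H X)} :
    a ∈ gs hg ↔ a ∈ g := Iff.rfl

lemma jl (hg : IsJordanLefschetz W X D g) : JL.IsJordanLefschetz W X D (gs hg) where
  lie := fun a ha b hb => hg.graded.lie a ha b hb
  split := fun a ha => hg.graded.split a ha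
  skew := fun z hz h => hg.skew z hz h
  lef := hg.lef
  low := fun f hf h => hg.low f hf h

/-- The component in degree zero is detected by the products with the top classes. -/
lemma top_mul_iff {b : W.H Y} : (∀ y ∈ W.gr Y (2 * Y.dim), b * y = 0) ↔
    proj (W.isInternal Y) 0 b = 0 := by
  have h1 : ∀ y ∈ W.gr Y (2 * Y.dim), b * y = proj (W.isInternal Y) 0 b * y := by
    intro y hy
    refine gr_induction (W.isInternal Y) (p := fun b => b * y = proj (W.isInternal Y) 0 b * y)
      ?_ ?_ b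
    · intro i b hb
      by_cases hi : i = 0
      · subst hi
        rw [proj_same _ hb]
      · rw [proj_ne _ hb hi, zero_mul]
        have h2 := W.mul_mem hb hy
        rw [W.gr_eq_bot Y _ (by omega)] at h2
        exact (Submodule.mem_bot _).1 h2
    · intro a b ha hb
      rw [add_mul, ha, hb, map_add, add_mul]
  constructor
  · intro h
    by_cases hP : ∃ P ∈ W.gr Y (2 * Y.dim), P ≠ 0
    · obtain ⟨P, hP, hP0⟩ := hP
      have h2 : proj (W.isInternal Y) 0 b ∈ W.gr Y 0 := proj_mem _ _ _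
      rw [W.gr_zero, Submodule.mem_span_singleton] at h2
      obtain ⟨c, hc⟩ := h2
      have h3 := h P hP
      rw [h1 P hP, ← hc, smul_mul_assoc, one_mul] at h3
      rcases smul_eq_zero.1 h3 with h4 | h4
      · rw [← hc, h4, zero_smul]
      · exact absurd h4 hP0
    · push Not at hP
      exact JL.eq_zero_of_top hP _
  · intro h y hy
    rw [h1 y hy, h, zero_mul]

lemma rank_iff {u : Mp W X Y} : NonzeroRank W X Y u ↔ JL.NonzeroRank W X Y u := by
  unfold NonzeroRank JL.NonzeroRank IsNonzeroOn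
  simp only [top_mul_iff]

lemma foldr_eq (l : List (Module.End W.K (W.H X))) :
    (compose l : Mp W X X) = l.prod := by
  induction l with
  | nil => rfl
  | cons a l ih =>
    rw [compose, List.foldr_cons, ← compose, ih]
    rfl

lemma alg_iff (hg : IsJordanLefschetz W X D g) {a : Module.End W.K (W.H X)} :
    a ∈ algebraicElements W X g ↔ a ∈ gs hg ∧ JL.IsAlgebraic W X X a := Iff.rfl

lemma part_eq (hg : IsJordanLefschetz W X D g) (d : ℤ) :
    Submodule.span W.K (degreePart (W.gr X) (algebraicElements W X g) d) =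
      JL.algebraicPart W X (gs hg) d := by
  rw [JL.algebraicPart]
  congr 1
  ext a
  exact and_assoc

lemma equiv_iff {E : Y.Cycles} {g' : Set (Mp W Y Y)} (hg : IsJordanLefschetz W X D g)
    (hg' : IsJordanLefschetz W Y E g') {u : Mp W X Y} {v : Mp W Y X} :
    IsLieEquivalence W X Y g g' u v ↔ JL.IsLieEquivalence W X Y (gs hg) (gs hg') u v :=
  ⟨fun h => ⟨h.alg, h.alg', LinearMap.ext h.carries.1, LinearMap.ext h.carries'.1,
    h.carries.2, h.carries'.2, rank_iff.1 h.rank, rank_iff.1 h.rank'⟩,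
  fun h => ⟨h.alg, h.alg', rank_iff.2 h.rank, rank_iff.2 h.rank',
    ⟨fun x => LinearMap.congr_fun h.left x, h.conj⟩,
    ⟨fun x => LinearMap.congr_fun h.right x, h.conj'⟩⟩⟩

theorem main_tfae (hD : X.IsCyc 1 D) (hHL : HardLefschetz W X D)
    (hg : IsJordanLefschetz W X D g) :
    List.TFAE [LefschetzB W X D, ∃ w, MovesTop W X g (List.replicate X.dim w),
      ∃ l, MovesTop W X g l, IsBalanced W X g, ∃ u v, IsLieEquivalence W X X g g u v] := by
  have h0 := JL.tfae (jl hg) hD hHL
  tfae_have 1 → 2 := by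
    intro hB
    obtain ⟨w, hw, hwa, hr⟩ := (h0.out 0 1).1 hB
    refine ⟨w, fun a ha => ?_, ?_⟩
    · rw [List.eq_of_mem_replicate ha]; exact ⟨hw, hwa⟩
    · have h1 := foldr_eq (W := W) (X := X) (List.replicate X.dim w)
      rw [List.prod_replicate] at h1
      rw [rank_iff, h1]
      exact hr
  tfae_have 2 → 3 := fun ⟨w, h⟩ => ⟨_, h⟩
  tfae_have 3 → 1 := by
    rintro ⟨l, hl, hr⟩
    apply (h0.out 2 0).1
    refine ⟨l, fun w hw => hl w hw, ?_⟩
    rw [rank_iff, foldr_eq] at hr
    exact hr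
  tfae_have 1 ↔ 4 := by
    rw [IsBalanced, Balanced, Set.finrank, Set.finrank, part_eq hg, part_eq hg]
    exact h0.out 0 3
  tfae_have 1 → 5 := by
    intro hB
    obtain ⟨u, v, h⟩ := JL.exists_equiv (jl hg) hD hHL hB
    exact ⟨u, v, (equiv_iff hg hg).2 h⟩
  tfae_have 5 → 1 := by
    rintro ⟨u, v, h⟩
    exact JL.lefschetzB_of_equiv rfl (jl hg) hD hHL (jl hg) hD hHL ((equiv_iff hg hg).1 h)
  tfae_finish

theorem main_rankOne (hD : X.IsCyc 1 D) (hHL : HardLefschetz W X D)
    (hg : IsJordanLefschetz W X D g) (h : IsRankOne W X D g) : LefschetzB W X D := by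
  obtain ⟨h1, f, hf, hf0⟩ := h
  apply JL.lefschetzB_of_picard_one (jl hg) hD hHL
  · rw [← part_eq hg]
    apply Submodule.span_le.2
    intro e he
    obtain ⟨c, hc⟩ := h1 e he
    rw [SetLike.mem_coe, Submodule.mem_span_singleton]
    refine ⟨c, ?_⟩
    rw [hc]
    apply LinearMap.ext
    intro x
    simp
  · intro hbot
    apply hf0
    have h2 : f ∈ Submodule.span W.K (degreePart (W.gr X) (algebraicElements W X g) (-2)) :=
      Submodule.subset_span hf
    rw [part_eq hg, hbot] at h2
    exact (Submodule.mem_bot _).1 h2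

theorem main_equiv (hD : X.IsCyc 1 D) (hHL : HardLefschetz W X D)
    (hg : IsJordanLefschetz W X D g) {E : Y.Cycles} {g' : Set (Mp W Y Y)}
    (hE : Y.IsCyc 1 E) (hHL' : HardLefschetz W Y E) (hg' : IsJordanLefschetz W Y E g')
    (hdim : X.dim = Y.dim) {u : Mp W X Y} {v : Mp W Y X}
    (h : IsLieEquivalence W X Y g g' u v) : LefschetzB W X D ∧ LefschetzB W Y E := by
  have h' := (equiv_iff hg hg').1 h
  exact ⟨JL.lefschetzB_of_equiv hdim (jl hg) hD hHL (jl hg') hE hHL' h',
    JL.lefschetzB_of_equiv hdim.symm (jl hg') hE hHL' (jl hg) hD hHL h'.symm⟩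

end Pool.Agent.N190.JLS
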