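import Pool.Agent.N190.JL.Lie
import Pool.Agent.N190.Opp.Top

/-!
# Lowering operators of full rank in a Lie algebra of Jordan-Lefschetz type
-/

open CategoryTheory AlgebraicGeometry Finset

universe u v

namespace Pool.Agent.N190.JL

open Pool.Agent.H914 Pool.Agent.N190.Opp VarClass Obj WeilCohomology

variable {k : Type u} [Field k] {𝒱 : VarClass k} {ops : CycleOps 𝒱}
  {W : WeilCohomology.{u, v} ops} {X : 𝒱.Obj} {D : X.Cycles}
  {g : Submodule W.K (Module.End W.K (W.H X))}

/-- The part of degree `d`. -/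
def part (W : WeilCohomology.{u, v} ops) (X : 𝒱.Obj)
    (g : Submodule W.K (Module.End W.K (W.H X))) (d : ℤ) :
    Submodule W.K (Module.End W.K (W.H X)) where
  carrier := {a | a ∈ g ∧ IsHom (W.gr X) d a}
  add_mem' := fun ha hb => ⟨Submodule.add_mem _ ha.1 hb.1, ha.2.add hb.2⟩
  zero_mem' := ⟨Submodule.zero_mem _, isHom_zero d⟩
  smul_mem' := fun c _ ha => ⟨Submodule.smul_mem _ c ha.1, ha.2.smul c⟩

/-- The degree operator. -/
noncomputable abbrev hop (W : WeilCohomology.{u, v} ops) (X : 𝒱.Obj) :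
    Module.End W.K (W.H X) := wt (W.isInternal X) X.dim

/-- The Lefschetz operator. -/
noncomputable abbrev lop (W : WeilCohomology.{u, v} ops) (X : 𝒱.Obj) (D : X.Cycles) :
    Module.End W.K (W.H X) := LinearMap.mulLeft W.K (W.cl X D)

lemma hop_lie {d : ℤ} {a : Module.End W.K (W.H X)} (ha : IsHom (W.gr X) d a) :
    (bk (hop W X) a) = (d : W.K) • a := by
  rw [bk_def, ha.wt_comm (W.isInternal X) X.dim]; abel

lemma isHom_lie {d e : ℤ} {a b : Module.End W.K (W.H X)} (ha : IsHom (W.gr X) d a)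
    (hb : IsHom (W.gr X) e b) : IsHom (W.gr X) (d + e) (bk a b) := by
  rw [bk_def]
  refine (ha.mul hb).sub ?_
  rw [add_comm]
  exact hb.mul ha

lemma isHom_cast {d e : ℤ} {a : Module.End W.K (W.H X)} (ha : IsHom (W.gr X) d a) (h : d = e) :
    IsHom (W.gr X) e a := h ▸ ha

/-- Membership in a graded piece. -/
lemma hom_mem {d : ℤ} {a : Module.End W.K (W.H X)} (ha : IsHom (W.gr X) d a) {i j : ℕ}
    {x : W.H X} (hx : x ∈ W.gr X i) (hij : (j : ℤ) = i + d) : a x ∈ W.gr X j := by
  have h := ha i x (by rw [grZ_natCast]; exact hx)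
  rwa [← hij, grZ_natCast] at h

lemma hom_zero {d : ℤ} {a : Module.End W.K (W.H X)} (ha : IsHom (W.gr X) d a) {i : ℕ}
    {x : W.H X} (hx : x ∈ W.gr X i) (hij : (i : ℤ) + d < 0 ∨ 2 * (X.dim : ℤ) < i + d) :
    a x = 0 := by
  have h := ha i x (by rw [grZ_natCast]; exact hx)
  rcases hij with h1 | h1
  · rw [grZ_of_neg h1] at h
    exact (Submodule.mem_bot _).1 h
  · obtain ⟨j, hj⟩ := Int.eq_ofNat_of_zero_le (a := (i : ℤ) + d) (by omega)
    rw [hj] at h h1
    have h2 : a x ∈ W.gr X j := by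
      have := h
      rwa [grZ_natCast] at this
    rw [W.gr_eq_bot X j (by omega)] at h2
    exact (Submodule.mem_bot _).1 h2

/-- The trace is injective on the top cohomology. -/
lemma tr_inj {y : W.H X} (hy : y ∈ W.gr X (2 * X.dim)) (h1 : W.tr X y = 0) : y = 0 := by
  apply W.nondeg
  intro b
  refine gr_induction (W.isInternal X) (p := fun b => W.tr X (y * b) = 0) ?_ ?_ b
  · intro i b hb
    by_cases hi : i = 0
    · subst hi
      rw [W.gr_zero, Submodule.mem_span_singleton] at hb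
      obtain ⟨c, rfl⟩ := hb
      rw [mul_smul_comm, mul_one, map_smul, h1, smul_zero]
    · exact W.tr_eq_zero (W.mul_mem hy hb) (by omega)
  · intro a b ha hb
    rw [mul_add, map_add, ha, hb, add_zero]

lemma top_span {P : W.H X} (hP : P ∈ W.gr X (2 * X.dim)) (hP0 : P ≠ 0) {y : W.H X}
    (hy : y ∈ W.gr X (2 * X.dim)) : y = (W.tr X y / W.tr X P) • P := by
  have htr : W.tr X P ≠ 0 := fun h => hP0 (tr_inj hP h)
  apply sub_eq_zero.1
  apply tr_inj (Submodule.sub_mem _ hy (Submodule.smul_mem _ _ hP))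
  rw [map_sub, map_smul, smul_eq_mul, div_mul_cancel₀ _ htr, sub_self]

section

variable (hg : IsJordanLefschetz W X D g)

include hg

lemma lie_mem {a b : Module.End W.K (W.H X)} (ha : a ∈ g) (hb : b ∈ g) : (bk a b) ∈ g :=
  hg.lie a ha b hb

lemma low_mem {F : Module.End W.K (W.H X)} (t : Sl2 (hop W X) (lop W X D) F)
    (hF : IsHom (W.gr X) (-2) F) : F ∈ g := by
  apply hg.low F hF
  intro i x hx
  have h1 := congrArg (fun T => T x) t.ef
  simp only [LinearMap.sub_apply, Module.End.mul_apply, LinearMap.mulLeft_apply] at h1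
  rw [h1, show hop W X x = ((node X.dim i : ℚ) : W.K) • x from
    scal_apply (W.isInternal X) _ hx]
  congr 1
  unfold node
  push_cast; ring

lemma part_lie {d e : ℤ} {a b : Module.End W.K (W.H X)} (ha : a ∈ part W X g d)
    (hb : b ∈ part W X g e) : (bk a b) ∈ part W X g (d + e) :=
  ⟨lie_mem hg ha.1 hb.1, isHom_lie ha.2 hb.2⟩

/-- The components of an element of `g`. -/
lemma moments {d : ℤ} {a : Module.End W.K (W.H X)} (ha : a ∈ part W X g d) :
    ∃ f e : Module.End W.K (W.H X), (∃ x ∈ W.gr X 2, e = LinearMap.mulLeft W.K x) ∧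
      (d : W.K) • a = (2 : W.K) • e - (2 : W.K) • f ∧
      (d : W.K) • ((d : W.K) • a) = (4 : W.K) • e + (4 : W.K) • f ∧
      (d : W.K) • ((d : W.K) • ((d : W.K) • a)) = (8 : W.K) • e - (8 : W.K) • f := by
  obtain ⟨f, hf, z, hz, e, he, hf2, hz2, ⟨x, hx, hex⟩, hsum⟩ := hg.split a ha.1
  have he2 : IsHom (W.gr X) 2 e := by
    rw [hex]
    intro i y hy
    by_cases hi : 0 ≤ i
    · lift i to ℕ using hi
      rw [grZ_natCast] at hy
      have h1 := W.mul_mem hx hy
      rw [show ((i : ℤ) + 2) = ((2 + i : ℕ) : ℤ) by push_cast; ring, grZ_natCast]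
      exact h1
    · rw [grZ_of_neg (by omega)] at hy
      rw [(Submodule.mem_bot _).1 hy, map_zero]
      exact Submodule.zero_mem _
  have k1 : (bk (hop W X) e) = (2 : W.K) • e := by rw [hop_lie he2]; norm_num
  have k2 : (bk (hop W X) f) = -((2 : W.K) • f) := by
    rw [hop_lie hf2]; push_cast; module
  have k3 : (bk (hop W X) z) = 0 := by rw [hop_lie hz2]; simp
  have k4 := hop_lie ha.2
  have e1 : (d : W.K) • a = (2 : W.K) • e - (2 : W.K) • f := by
    rw [← k4, hsum, bk_add, bk_add, k1, k2, k3]; abel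
  have e2 : (d : W.K) • ((d : W.K) • a) = (4 : W.K) • e + (4 : W.K) • f := by
    have : (bk (hop W X) ((d : W.K) • a)) = (d : W.K) • ((d : W.K) • a) := by rw [bk_smul, k4]
    rw [← this, e1, bk_sub, bk_smul, bk_smul, k1, k2]
    module
  refine ⟨f, e, ⟨x, hx, hex⟩, e1, e2, ?_⟩
  have : (bk (hop W X) ((d : W.K) • ((d : W.K) • a))) = (d : W.K) • ((d : W.K) • ((d : W.K) • a)) := by
    rw [bk_smul, bk_smul, k4]
  rw [← this, e2, bk_add, bk_smul, bk_smul, k1, k2]
  module

/-- The elements of degree two are cup products. -/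
lemma part_two {a : Module.End W.K (W.H X)} (ha : a ∈ part W X g 2) :
    ∃ x ∈ W.gr X 2, a = LinearMap.mulLeft W.K x := by
  obtain ⟨f, e, ⟨x, hx, hex⟩, h1, h2, -⟩ := moments hg ha
  refine ⟨x, hx, ?_⟩
  rw [← hex]
  push_cast at h1 h2
  have h3 : (8 : W.K) • (a - e) = 0 := by
    have : (8 : W.K) • (a - e) = (2 : W.K) • ((2 : W.K) • a) +
      (2 : W.K) • ((2 : W.K) • a) - (8 : W.K) • e := by module
    rw [this]
    nth_rewrite 1 [h2]
    rw [h1]
    module
  rcases smul_eq_zero.1 h3 with h4 | h4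
  · norm_num at h4
  · exact sub_eq_zero.1 h4

lemma part_four {d : ℤ} (hd : d = 4 ∨ d = -4) {a : Module.End W.K (W.H X)}
    (ha : a ∈ part W X g d) : a = 0 := by
  obtain ⟨f, e, -, h1, -, h3⟩ := moments hg ha
  have h4 : (d : W.K) • ((d : W.K) • ((d : W.K) • a)) = (4 : W.K) • ((d : W.K) • a) := by
    rw [h3, h1]; module
  have h5 : ((d : W.K) * (d * d - 4)) • a = 0 := by
    have : ((d : W.K) * (d * d - 4)) • a = (d : W.K) • ((d : W.K) • ((d : W.K) • a)) -
      (4 : W.K) • ((d : W.K) • a) := by module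
    rw [this, h4, sub_self]
  rcases smul_eq_zero.1 h5 with h6 | h6
  · rcases hd with rfl | rfl <;> norm_num at h6
  · exact h6

lemma lie_neg_neg {a b : Module.End W.K (W.H X)} (ha : a ∈ part W X g (-2))
    (hb : b ∈ part W X g (-2)) : (bk a b) = 0 :=
  part_four hg (Or.inr (by norm_num)) (part_lie hg ha hb)

lemma lie_pos_pos {a b : Module.End W.K (W.H X)} (ha : a ∈ part W X g 2)
    (hb : b ∈ part W X g 2) : (bk a b) = 0 :=
  part_four hg (Or.inl (by norm_num)) (part_lie hg ha hb)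

/-- **The key step.** -/
lemma inj_two (hn : 2 ≤ X.dim) {f : Module.End W.K (W.H X)} (hf : f ∈ part W X g (-2))
    {P : W.H X} (hP : P ∈ W.gr X (2 * X.dim)) (hfP : (f ^ X.dim) P ≠ 0)
    {e : Module.End W.K (W.H X)} (he : e ∈ part W X g 2) (h0 : (bk f (bk f e)) = 0) : e = 0 := by
  set n := X.dim with hn'
  set z := (bk e f) with hz
  have hzp : z ∈ part W X g 0 := by
    have := part_lie hg he hf
    simpa using this
  have hzc : z * f = f * z := by
    have h1 : (bk f z) = 0 := by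
      rw [hz, bk_skew e f, bk_neg, h0, neg_zero]
    rw [bk_def] at h1
    exact (sub_eq_zero.1 h1).symm
  have hP0 : P ≠ 0 := by rintro rfl; exact hfP (map_zero _)
  have htr : W.tr X P ≠ 0 := fun h => hP0 (tr_inj hP h)
  obtain ⟨χ, hχ⟩ : ∃ χ : W.K, z P = χ • P :=
    ⟨_, top_span hP hP0 (hom_mem hzp.2 hP (by push_cast; ring))⟩
  obtain ⟨χ', hχ'⟩ : ∃ χ' : W.K, z 1 = χ' • (1 : W.H X) := by
    have h1 : z 1 ∈ W.gr X 0 := hom_mem hzp.2 (W.one_mem X) (by simp)
    rw [W.gr_zero, Submodule.mem_span_singleton] at h1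
    obtain ⟨c, hc⟩ := h1
    exact ⟨c, hc.symm⟩
  have hχχ : χ' = -χ := by
    have h1 := hg.skew z hzp.1 hzp.2 P 1
    rw [hχ, hχ', mul_one, mul_smul_comm, mul_one, map_smul, map_smul, ← add_smul] at h1
    rcases smul_eq_zero.1 h1 with h2 | h2
    · exact eq_neg_of_add_eq_zero_right h2
    · exact absurd h2 htr
  -- `f^n P = N 1`
  obtain ⟨N, hN⟩ : ∃ N : W.K, (f ^ n) P = N • (1 : W.H X) := by
    have h1 : (f ^ n) P ∈ W.gr X 0 := hom_mem (hf.2.pow n) hP (by push_cast; ring)
    rw [W.gr_zero, Submodule.mem_span_singleton] at h1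
    obtain ⟨c, hc⟩ := h1
    exact ⟨c, hc.symm⟩
  have hN0 : N ≠ 0 := by
    rintro rfl
    apply hfP
    rw [hN, zero_smul]
  have h10 : (1 : W.H X) ≠ 0 := by
    intro h1
    apply hfP
    rw [hN, h1, smul_zero]
  have heP : e P = 0 := hom_zero he.2 hP (Or.inr (by push_cast; omega))
  have hf1 : f 1 = 0 := hom_zero hf.2 (W.one_mem X) (Or.inl (by norm_num))
  -- `e f^n P = n χ f^(n-1) P`
  have k1 : N • e 1 = (n * χ : W.K) • (f ^ (n - 1)) P := by
    have h1 := congrArg (fun T => T P) (e_f_pow (K := W.K) (e := e) (f := f) (z := z) rfl hzc n)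
    simp only [Module.End.mul_apply, LinearMap.add_apply, LinearMap.smul_apply, heP, map_zero,
      zero_add, hχ, map_smul, hN] at h1
    rw [h1, smul_smul]
  have k2 : f (e 1) = (n * χ : W.K) • (1 : W.H X) := by
    have h1 := congrArg f k1
    rw [map_smul, map_smul, ← Module.End.mul_apply f (f ^ (n - 1)), ← pow_succ',
      show n - 1 + 1 = n by omega, hN, smul_comm] at h1
    have h2 : N • (f (e 1) - (n * χ : W.K) • (1 : W.H X)) = 0 := by
      rw [smul_sub, h1, sub_self]
    rcases smul_eq_zero.1 h2 with h3 | h3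
    · exact absurd h3 hN0
    · exact sub_eq_zero.1 h3
  have k3 : z 1 = -((n * χ : W.K) • (1 : W.H X)) := by
    rw [hz, bk_def, LinearMap.sub_apply, Module.End.mul_apply, Module.End.mul_apply, hf1,
      map_zero, k2, zero_sub]
  have k4 : χ = 0 := by
    rw [hχ', hχχ, neg_smul, neg_inj] at k3
    have h1 : ((n : W.K) * χ - χ) • (1 : W.H X) = 0 := by rw [sub_smul, ← k3, sub_self]
    rcases smul_eq_zero.1 h1 with h2 | h2
    · have h3 : ((n : W.K) - 1) * χ = 0 := by rw [← h2]; ring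
      rcases mul_eq_zero.1 h3 with h4 | h4
      · exfalso
        have h5 : (n : W.K) = ((1 : ℕ) : W.K) := by rw [Nat.cast_one]; exact sub_eq_zero.1 h4
        have h6 : n = 1 := by exact_mod_cast h5
        omega
      · exact h4
    · exact absurd h2 h10
  rw [k4, mul_zero, zero_smul] at k1
  obtain ⟨x, -, hx⟩ := part_two hg he
  have h1 : e 1 = 0 := by
    rcases smul_eq_zero.1 k1 with h2 | h2
    · exact absurd h2 hN0
    · exact h2
  rw [hx, LinearMap.mulLeft_apply, mul_one] at h1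
  rw [hx, h1, LinearMap.mulLeft_zero_eq_zero]

/-- The raising operators are at least as many as the lowering operators. -/
lemma inj_neg {F : Module.End W.K (W.H X)} (hD : X.IsCyc 1 D)
    (t : Sl2 (hop W X) (lop W X D) F) (hF : IsHom (W.gr X) (-2) F)
    {y : Module.End W.K (W.H X)} (hy : y ∈ part W X g (-2))
    (h0 : (bk (lop W X D) (bk (lop W X D) y)) = 0) : y = 0 := by
  set L : Module.End W.K (W.H X) := lop W X D with hL
  have hLh : IsHom (W.gr X) 2 L := by
    simpa using rop_opAlg.hom (rop_mulLeft (W := W) hD)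
  have hFg : F ∈ part W X g (-2) := ⟨low_mem hg t hF, hF⟩
  have hFL : (bk F L) = -hop W X := by rw [bk_def, ← t.ef]; abel
  have hFy : (bk F y) = 0 := lie_neg_neg hg hFg hy
  have k1 : (bk F (bk L y)) = (2 : W.K) • y := by
    rw [bk_leibniz, hFL, hFy, bk_zero, add_zero, neg_bk, hop_lie hy.2]
    push_cast; module
  have hLy : IsHom (W.gr X) 0 (bk L y) := by simpa using isHom_lie hLh hy.2
  have k2 : (bk F (bk L (bk L y))) = (2 : W.K) • (bk L y) := by
    rw [bk_leibniz, hFL, k1, neg_bk, hop_lie hLy, bk_smul]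
    push_cast; module
  rw [h0, bk_zero] at k2
  have k3 : (bk L y) = 0 := by
    rcases smul_eq_zero.1 k2.symm with h1 | h1
    · norm_num at h1
    · exact h1
  rw [k3, bk_zero] at k1
  rcases smul_eq_zero.1 k1.symm with h1 | h1
  · norm_num at h1
  · exact h1

/-- The lowering operators are at least as many as the raising operators. -/
lemma inj_pos {F : Module.End W.K (W.H X)} (hD : X.IsCyc 1 D)
    (t : Sl2 (hop W X) (lop W X D) F) (hF : IsHom (W.gr X) (-2) F)
    {y : Module.End W.K (W.H X)} (hy : y ∈ part W X g 2) (h0 : bk F (bk F y) = 0) : y = 0 := by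
  set L : Module.End W.K (W.H X) := lop W X D with hL
  have hLg : L ∈ part W X g 2 :=
    ⟨hg.lef, by simpa using rop_opAlg.hom (rop_mulLeft (W := W) hD)⟩
  have hLF : bk L F = hop W X := t.ef
  have hLy : bk L y = 0 := lie_pos_pos hg hLg hy
  have k1 : bk L (bk F y) = (2 : W.K) • y := by
    rw [bk_leibniz, hLF, hLy, bk_zero, add_zero, hop_lie hy.2]
    push_cast; module
  have hFy : IsHom (W.gr X) 0 (bk F y) := by simpa using isHom_lie hF hy.2
  have k2 : bk L (bk F (bk F y)) = (2 : W.K) • bk F y := by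
    rw [bk_leibniz, hLF, k1, hop_lie hFy, bk_smul]
    push_cast; module
  rw [h0, bk_zero] at k2
  have k3 : bk F y = 0 := by
    rcases smul_eq_zero.1 k2.symm with h1 | h1
    · norm_num at h1
    · exact h1
  rw [k3, bk_zero] at k1
  rcases smul_eq_zero.1 k1.symm with h1 | h1
  · norm_num at h1
  · exact h1

end

end Pool.Agent.N190.JL
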