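import Pool.Agent.N190.Opp.Defs
import Pool.Agent.H914R2.Core3

/-!
# Lie algebras of Jordan-Lefschetz type: definitions
-/

open CategoryTheory AlgebraicGeometry

universe u v

namespace Pool.Agent.N190.JL

open Pool.Agent.H914 Pool.Agent.N190.Opp VarClass Obj WeilCohomology

variable {k : Type u} [Field k] {𝒱 : VarClass k} {ops : CycleOps 𝒱}

/-- The space `g` of operators on the total cohomology `H(X)` is a Lie algebra of
Jordan-Lefschetz type for the divisor `D`:
* it is closed under commutators;
* it is the sum of its parts of degrees `-2`, `0` and `2`, and the elements of its part of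
  degree `2` are cup products with classes in `H^2(X)`;
* its elements `z` of degree zero satisfy `∫ z(a) b + ∫ a z(b) = 0`;
* it contains the Lefschetz operator `L` of `D` and the operator `f` of degree `-2` with
  `(L f - f L)(x) = (i - dim X) x` for `x` in `H^i(X)`. -/
structure IsJordanLefschetz (W : WeilCohomology.{u, v} ops) (X : 𝒱.Obj) (D : X.Cycles)
    (g : Submodule W.K (Module.End W.K (W.H X))) : Prop where
  lie : ∀ a ∈ g, ∀ b ∈ g, a * b - b * a ∈ g
  split : ∀ a ∈ g, ∃ f ∈ g, ∃ z ∈ g, ∃ e ∈ g, IsHom (W.gr X) (-2) f ∧ IsHom (W.gr X) 0 z ∧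
    (∃ x ∈ W.gr X 2, e = LinearMap.mulLeft W.K x) ∧ a = f + z + e
  skew : ∀ z ∈ g, IsHom (W.gr X) 0 z → ∀ a b, W.tr X (z a * b) + W.tr X (a * z b) = 0
  lef : LinearMap.mulLeft W.K (W.cl X D) ∈ g
  low : ∀ f : Module.End W.K (W.H X), IsHom (W.gr X) (-2) f →
    (∀ i, ∀ x ∈ W.gr X i, W.cl X D * f x - f (W.cl X D * x) = ((i : W.K) - X.dim) • x) → f ∈ g

/-- The operator `u : H(X) → H(Y)` has non-zero rank: followed by the projection to `H^0(Y)` it
is injective on the one-dimensional space `H^(2 dim X)(X)`. -/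
def NonzeroRank (W : WeilCohomology.{u, v} ops) (X Y : 𝒱.Obj) (u : W.H X →ₗ[W.K] W.H Y) : Prop :=
  ∀ x ∈ W.gr X (2 * X.dim), proj (W.isInternal Y) 0 (u x) = 0 → x = 0

/-- The operator `u : H(X) → H(Y)` is algebraic: it is induced by a combination, with coefficients
in the coefficient field, of algebraic cycles of all codimensions on `X × Y`. -/
def IsAlgebraic (W : WeilCohomology.{u, v} ops) (X Y : 𝒱.Obj) (u : W.H X →ₗ[W.K] W.H Y) : Prop :=
  ∃ γ ∈ mixedCycles W (X.prod Y), W.corr γ = u

/-- The space spanned by the algebraic elements of `g` which are homogeneous of degree `d`. -/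
def algebraicPart (W : WeilCohomology.{u, v} ops) (X : 𝒱.Obj)
    (g : Submodule W.K (Module.End W.K (W.H X))) (d : ℤ) :
    Submodule W.K (Module.End W.K (W.H X)) :=
  Submodule.span W.K {a | a ∈ g ∧ IsAlgebraic W X X a ∧ IsHom (W.gr X) d a}

/-- The power with exponent `dim X` of some algebraic element of `g` has non-zero rank. -/
def HasElement (W : WeilCohomology.{u, v} ops) (X : 𝒱.Obj)
    (g : Submodule W.K (Module.End W.K (W.H X))) : Prop :=
  ∃ w ∈ g, IsAlgebraic W X X w ∧ NonzeroRank W X X (w ^ X.dim)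

/-- Some product of algebraic elements of `g` (any number of them) has non-zero rank. -/
def HasProduct (W : WeilCohomology.{u, v} ops) (X : 𝒱.Obj)
    (g : Submodule W.K (Module.End W.K (W.H X))) : Prop :=
  ∃ l : List (Module.End W.K (W.H X)), (∀ w ∈ l, w ∈ g ∧ IsAlgebraic W X X w) ∧
    NonzeroRank W X X l.prod

/-- In `g` there are as many independent algebraic elements of degree `-2` as of degree `2`. -/
def IsBalanced (W : WeilCohomology.{u, v} ops) (X : 𝒱.Obj)
    (g : Submodule W.K (Module.End W.K (W.H X))) : Prop :=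
  Module.finrank W.K (algebraicPart W X g (-2)) = Module.finrank W.K (algebraicPart W X g 2)

/-- The operators `u` and `v` are algebraic, of non-zero rank, mutually inverse, and exchange the
Lie algebras `g` and `g'`. (For example the operators given by the Mukai vectors of an equivalence
of the derived categories of two hyperkähler varieties whose kernel has non-zero rank, and of its
inverse, with the Looijenga-Lunts-Verbitsky Lie algebras.) -/
structure IsLieEquivalence (W : WeilCohomology.{u, v} ops) (X Y : 𝒱.Obj)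
    (g : Submodule W.K (Module.End W.K (W.H X))) (g' : Submodule W.K (Module.End W.K (W.H Y)))
    (u : W.H X →ₗ[W.K] W.H Y) (v : W.H Y →ₗ[W.K] W.H X) : Prop where
  alg : IsAlgebraic W X Y u
  alg' : IsAlgebraic W Y X v
  left : v ∘ₗ u = LinearMap.id
  right : u ∘ₗ v = LinearMap.id
  conj : ∀ a ∈ g, u ∘ₗ (a : W.H X →ₗ[W.K] W.H X) ∘ₗ v ∈ g'
  conj' : ∀ b ∈ g', v ∘ₗ (b : W.H Y →ₗ[W.K] W.H Y) ∘ₗ u ∈ g
  rank : NonzeroRank W X Y u
  rank' : NonzeroRank W Y X v

end Pool.Agent.N190.JL
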