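import Pool.Agent.N190.JL.Defs
import Pool.Agent.H914R2.TStr
import Pool.Agent.H914R2.Sl2

/-!
# Computations in a three-graded Lie algebra
-/

open Finset

namespace Pool.Agent.N190.JL

open Pool.Agent.H914

variable {K : Type*} [Field K] {V : Type*} [AddCommGroup V] [Module K V]

/-- The commutator. -/
def bk (a b : Module.End K V) : Module.End K V := a * b - b * a

lemma bk_def (a b : Module.End K V) : bk a b = a * b - b * a := rfl

lemma bk_add (a b c : Module.End K V) : bk a (b + c) = bk a b + bk a c := by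
  unfold bk; noncomm_ring

lemma bk_sub (a b c : Module.End K V) : bk a (b - c) = bk a b - bk a c := by
  unfold bk; noncomm_ring

lemma bk_neg (a b : Module.End K V) : bk a (-b) = -bk a b := by
  unfold bk; noncomm_ring

lemma neg_bk (a b : Module.End K V) : bk (-a) b = -bk a b := by
  unfold bk; noncomm_ring

lemma sub_bk (a b c : Module.End K V) : bk (a - b) c = bk a c - bk b c := by
  unfold bk; noncomm_ring

lemma bk_skew (a b : Module.End K V) : bk a b = -bk b a := by
  unfold bk; noncomm_ring

lemma bk_self (a : Module.End K V) : bk a a = 0 := by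
  unfold bk; rw [sub_self]

lemma bk_zero (a : Module.End K V) : bk a 0 = 0 := by
  unfold bk; rw [mul_zero, zero_mul, sub_self]

lemma bk_smul (a : Module.End K V) (c : K) (b : Module.End K V) :
    bk a (c • b) = c • bk a b := by
  unfold bk; rw [mul_smul_comm, smul_mul_assoc, smul_sub]

lemma smul_bk (c : K) (a b : Module.End K V) : bk (c • a) b = c • bk a b := by
  unfold bk; rw [mul_smul_comm, smul_mul_assoc, smul_sub]

lemma bk_leibniz (a b c : Module.End K V) : bk a (bk b c) = bk (bk a b) c + bk b (bk a c) := by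
  unfold bk; noncomm_ring

section

variable {f e x : Module.End K V}

lemma lie_a (h1 : bk f (bk f e) = -((2 : K) • f)) : bk f (bk e f) = (2 : K) • f := by
  rw [bk_skew e f, bk_neg, h1, neg_neg]

lemma lie_b (h1 : bk f (bk f e) = -((2 : K) • f)) :
    bk f (bk f (bk (bk e f) e)) = (2 : K) • bk f (bk f e) := by
  have h2 := lie_a h1
  have h3 : bk (bk e f) (bk f e) = 0 := by
    rw [bk_skew f e, bk_neg, bk_self, neg_zero]
  rw [bk_leibniz f (bk e f) e, h2, smul_bk, h3, add_zero, bk_smul]

variable [CharZero K]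

/-- The lowest weight vectors of degree two. -/
lemma lie_c (h1 : bk f (bk f e) = -((2 : K) • f)) (h2 : bk e x = 0)
    (h3 : bk f (bk f (bk f x)) = 0) : bk (bk e f) (bk f (bk f x)) =
      -((2 : K) • bk f (bk f x)) := by
  have hh := lie_a h1
  set H := bk e f with hH
  set Y := bk f (bk f x) with hY
  have e1 : bk f (bk H x) = (2 : K) • bk f x + bk H (bk f x) := by
    rw [bk_leibniz f H x, hh, smul_bk]
  have e2 : bk f (bk H (bk f x)) = (2 : K) • Y + bk H Y := by
    rw [bk_leibniz f H (bk f x), hh, smul_bk]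
  have e3 : bk e (bk f x) = bk H x := by
    rw [bk_leibniz e f x, h2, bk_zero, add_zero]
  have e4 : bk e Y = bk H (bk f x) + bk f (bk H x) := by
    rw [hY, bk_leibniz e f (bk f x), e3]
  have e5 : bk e (bk f Y) = bk H Y + bk f (bk e Y) := bk_leibniz e f Y
  have e6 : bk f (bk e Y) = (6 : K) • Y + (2 : K) • bk H Y := by
    rw [e4, e1, bk_add, bk_add, e2, bk_smul, ← hY]
    module
  have e7 : bk f Y = 0 := h3
  rw [e7, bk_zero, e6] at e5
  have h4 : (3 : K) • (bk H Y + (2 : K) • Y) = 0 := by
    rw [eq_comm, e5]; module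
  rcases smul_eq_zero.1 h4 with h5 | h5
  · norm_num at h5
  · exact eq_neg_of_add_eq_zero_left h5

lemma lie_d (h1 : bk f (bk f e) = -((2 : K) • f)) (h2 : bk e x = 0)
    (h3 : bk f (bk f (bk f x)) = 0) :
    bk f (bk f (bk (bk e f) x)) = (2 : K) • bk f (bk f x) := by
  have hh := lie_a h1
  have hc := lie_c h1 h2 h3
  set H := bk e f with hH
  set Y := bk f (bk f x) with hY
  have e1 : bk f (bk H x) = (2 : K) • bk f x + bk H (bk f x) := by
    rw [bk_leibniz f H x, hh, smul_bk]
  have e2 : bk f (bk H (bk f x)) = (2 : K) • Y + bk H Y := by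
    rw [bk_leibniz f H (bk f x), hh, smul_bk]
  rw [e1, bk_add, e2, hc, bk_smul, ← hY]
  module

end

/-- Commutators of `e` with powers of `f`. -/
lemma e_f_pow {e f z : Module.End K V} (hz : bk e f = z) (hc : z * f = f * z) (n : ℕ) :
    e * f ^ n = f ^ n * e + (n : K) • (f ^ (n - 1) * z) := by
  induction n with
  | zero => simp
  | succ n ih =>
    have h2 : e * f ^ (n + 1) = (e * f ^ n) * f := by rw [pow_succ, mul_assoc]
    have h3 : e * f = f * e + z := by rw [← hz]; unfold bk; abel
    rw [h2, ih, add_mul, mul_assoc (f ^ n) e f, h3, mul_add, ← mul_assoc, ← pow_succ,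
      smul_mul_assoc, mul_assoc, hc, ← mul_assoc, add_assoc, Nat.add_sub_cancel]
    congr 1
    rcases Nat.eq_zero_or_pos n with rfl | hn
    · simp
    · have h4 : f ^ (n - 1) * f = f ^ n := by
        rw [← pow_succ]; congr 1; omega
      rw [h4, Nat.cast_succ, add_smul, one_smul, add_comm]

/-- The trace of `[a, b] c` vanishes if `c` commutes with `a`. -/
lemma trace_bk {a b c : Module.End K V} (hac : a * c = c * a) :
    LinearMap.trace K V (bk a b * c) = 0 := by
  unfold bk
  rw [sub_mul, map_sub, sub_eq_zero]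
  calc LinearMap.trace K V (a * b * c) = LinearMap.trace K V (b * c * a) := by
        rw [mul_assoc, LinearMap.trace_mul_comm]
    _ = LinearMap.trace K V (b * a * c) := by rw [mul_assoc, ← hac, ← mul_assoc]

/-- The commutator with `a` as a linear map. -/
def adl (a : Module.End K V) : Module.End K V →ₗ[K] Module.End K V where
  toFun := bk a
  map_add' := bk_add a
  map_smul' := fun c b => bk_smul a c b

lemma adl_apply (a b : Module.End K V) : adl a b = bk a b := rfl

lemma surj_of_inj {E : Type*} [AddCommGroup E] [Module K E] [FiniteDimensional K E]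
    {P Q : Submodule K E} {A B : E →ₗ[K] E} (hA : ∀ x ∈ P, A x ∈ Q) (hB : ∀ y ∈ Q, B y ∈ P)
    (iA : ∀ x ∈ P, A x = 0 → x = 0) (iB : ∀ y ∈ Q, B y = 0 → y = 0) :
    ∀ y ∈ Q, ∃ x ∈ P, A x = y := by
  set S : P →ₗ[K] P := (B ∘ₗ A).restrict (fun x hx => hB _ (hA x hx)) with hS
  have h1 : Function.Injective S := by
    rw [← LinearMap.ker_eq_bot, LinearMap.ker_eq_bot']
    intro x hx
    have h2 : B (A x.1) = 0 := congrArg Subtype.val hx
    exact Subtype.ext (iA _ x.2 (iB _ (hA _ x.2) h2))
  have h2 := LinearMap.injective_iff_surjective.1 h1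
  intro y hy
  obtain ⟨x, hx⟩ := h2 ⟨B y, hB y hy⟩
  refine ⟨x.1, x.2, ?_⟩
  have h3 : B (A x.1) = B y := congrArg Subtype.val hx
  apply sub_eq_zero.1
  apply iB _ (Submodule.sub_mem _ (hA _ x.2) hy)
  rw [map_sub, h3, sub_self]

lemma finrank_le_of_inj {E : Type*} [AddCommGroup E] [Module K E] [FiniteDimensional K E]
    {P Q : Submodule K E} {A : E →ₗ[K] E} (hA : ∀ x ∈ P, A x ∈ Q)
    (iA : ∀ x ∈ P, A x = 0 → x = 0) : Module.finrank K P ≤ Module.finrank K Q := by
  have h1 : Function.Injective (A.restrict hA) := by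
    rw [← LinearMap.ker_eq_bot, LinearMap.ker_eq_bot']
    intro x hx
    exact Subtype.ext (iA _ x.2 (congrArg Subtype.val hx))
  exact LinearMap.finrank_le_finrank_of_injective h1

lemma surj_of_finrank {E : Type*} [AddCommGroup E] [Module K E] [FiniteDimensional K E]
    {P Q : Submodule K E} {A : E →ₗ[K] E} (hA : ∀ x ∈ P, A x ∈ Q)
    (iA : ∀ x ∈ P, A x = 0 → x = 0) (hfin : Module.finrank K P = Module.finrank K Q) :
    ∀ y ∈ Q, ∃ x ∈ P, A x = y := by
  have h1 : Function.Injective (A.restrict hA) := by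
    rw [← LinearMap.ker_eq_bot, LinearMap.ker_eq_bot']
    intro x hx
    exact Subtype.ext (iA _ x.2 (congrArg Subtype.val hx))
  have h2 := (LinearMap.injective_iff_surjective_of_finrank_eq_finrank hfin).1 h1
  intro y hy
  obtain ⟨x, hx⟩ := h2 ⟨y, hy⟩
  exact ⟨x.1, x.2, congrArg Subtype.val hx⟩

section Polar

open Polynomial

variable [CharZero K]

/-- The linear coefficient of a polynomial in `t` which vanishes for all `t`. -/
lemma lin_coeff {f h : Module.End K V} (hc : Commute f h) {v : V} {m : ℕ}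
    (h0 : ∀ t : K, ((f + t • h) ^ (m + 1)) v = 0) : (f ^ m) (h v) = 0 := by
  rw [← Module.forall_dual_apply_eq_zero_iff K]
  intro φ
  set p : K[X] := ∑ i ∈ range (m + 1 + 1),
    C (((m + 1).choose i : K) * φ ((f ^ i * h ^ (m + 1 - i)) v)) * X ^ (m + 1 - i) with hp
  have hp0 : p = 0 := by
    apply Polynomial.funext
    intro t
    have h1 := congrArg φ (h0 t)
    have hct : Commute f (t • h) := hc.smul_right t
    rw [hct.add_pow, LinearMap.sum_apply, map_sum, map_zero] at h1
    rw [hp, eval_finset_sum, eval_zero, ← h1]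
    apply Finset.sum_congr rfl
    intro i _
    rw [eval_mul, eval_C, eval_pow, eval_X, _root_.smul_pow, mul_smul_comm]
    have h2 : ((t ^ (m + 1 - i) • (f ^ i * h ^ (m + 1 - i)) *
        (((m + 1).choose i : ℕ) : Module.End K V)) : Module.End K V) =
        (((m + 1).choose i : K) * t ^ (m + 1 - i)) • (f ^ i * h ^ (m + 1 - i)) := by
      rw [(Nat.cast_commute _ _).symm.eq, ← nsmul_eq_mul, ← Nat.cast_smul_eq_nsmul K, smul_smul]
    rw [h2, LinearMap.smul_apply, map_smul, smul_eq_mul]
    ring
  have h1 := congrArg (fun q => q.coeff 1) hp0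
  simp only [hp, finsetSum_coeff, coeff_C_mul, coeff_X_pow, coeff_zero] at h1
  rw [Finset.sum_eq_single m] at h1
  · rw [show m + 1 - m = 1 by omega, if_pos rfl, mul_one, pow_one] at h1
    rcases mul_eq_zero.1 h1 with h2 | h2
    · exfalso
      rw [Nat.choose_succ_self_right] at h2
      exact (Nat.cast_ne_zero (R := K)).2 (Nat.succ_ne_zero m) h2
    · exact h2
  · intro i hi him
    have := Finset.mem_range.1 hi
    rw [if_neg (by omega), mul_zero]
  · intro h; exact absurd (Finset.mem_range.2 (by omega)) h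

/-- Polarization. -/
lemma polar {S : Submodule K (Module.End K V)} (hc : ∀ a ∈ S, ∀ b ∈ S, a * b = b * a) {P : V}
    {n : ℕ} (h : ∀ f ∈ S, (f ^ n) P = 0) (l : List (Module.End K V)) (hl : ∀ f ∈ l, f ∈ S)
    (hn : l.length ≤ n) : ∀ f ∈ S, (f ^ (n - l.length)) (l.prod P) = 0 := by
  induction l with
  | nil => intro f hf; simpa using h f hf
  | cons a l ih =>
    intro f hf
    rw [List.length_cons] at hn ⊢
    have ih' := ih (fun f hf => hl f (List.mem_cons_of_mem _ hf)) (by omega)
    have ha : a ∈ S := hl a List.mem_cons_self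
    rw [List.prod_cons, Module.End.mul_apply]
    apply lin_coeff (show Commute f a from hc f hf a ha)
    intro t
    have h1 := ih' (f + t • a) (Submodule.add_mem _ hf (Submodule.smul_mem _ _ ha))
    rwa [show n - l.length = n - (l.length + 1) + 1 by omega] at h1

end Polar

end Pool.Agent.N190.JL
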