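import Pool.Agent.N190.JL.Core
import Pool.Agent.H914R2.HLam
import Pool.Agent.W498.Dom.Main

/-!
# The Lefschetz standard conjecture and Lie algebras of Jordan-Lefschetz type
-/

open CategoryTheory AlgebraicGeometry Finset

universe u v

namespace Pool.Agent.N190.JL

open Pool.Agent.H914 Pool.Agent.N190.Opp VarClass Obj WeilCohomology Pool.Agent.W498.Dom

variable {k : Type u} [Field k] {𝒱 : VarClass k} {ops : CycleOps 𝒱}
  {W : WeilCohomology.{u, v} ops} {X Y : 𝒱.Obj} {D : X.Cycles}
  {g : Submodule W.K (Module.End W.K (W.H X))}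

section

variable (hg : IsJordanLefschetz W X D g) (hD : X.IsCyc 1 D) (hHL : HardLefschetz W X D)

include hg hD hHL

/-- Every lowering operator comes from a raising operator. -/
lemma exists_raise (hn : 2 ≤ X.dim) {f : Module.End W.K (W.H X)} (hf : f ∈ part W X g (-2))
    {P : W.H X} (hP : P ∈ W.gr X (2 * X.dim)) (hfP : (f ^ X.dim) P ≠ 0)
    {y : Module.End W.K (W.H X)} (hy : y ∈ part W X g (-2)) :
    ∃ e ∈ part W X g 2, bk f (bk f e) = y := by
  obtain ⟨F, t, hF, -⟩ := exists_sl2 (W.isInternal X) (L := lop W X D)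
    (by simpa using rop_opAlg.hom (rop_mulLeft (W := W) hD)) W_hbd hHL
  have hL : lop W X D ∈ part W X g 2 :=
    ⟨hg.lef, by simpa using rop_opAlg.hom (rop_mulLeft (W := W) hD)⟩
  -- the composite
  have hmap1 : ∀ e ∈ part W X g 2, bk f (bk f e) ∈ part W X g (-2) := by
    intro e he
    have h1 := part_lie hg hf (part_lie hg hf he)
    norm_num at h1
    exact h1
  have hmap2 : ∀ y ∈ part W X g (-2), bk (lop W X D) (bk (lop W X D) y) ∈ part W X g 2 := by
    intro y hy
    have h1 := part_lie hg hL (part_lie hg hL hy)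
    norm_num at h1
    exact h1
  exact surj_of_inj (P := part W X g 2) (Q := part W X g (-2)) (A := adl f ∘ₗ adl f)
    (B := adl (lop W X D) ∘ₗ adl (lop W X D)) hmap1 hmap2
    (fun e he h => inj_two hg hn hf hP hfP he h) (fun y hy h => inj_neg hg hD t hF hy h) y hy

/-- **A lowering operator in `g` of full rank has the Lefschetz property.** -/
theorem lowering_inj (hn : 2 ≤ X.dim) {f : Module.End W.K (W.H X)} (hf : f ∈ part W X g (-2))
    {P : W.H X} (hP : P ∈ W.gr X (2 * X.dim)) (hfP : (f ^ X.dim) P ≠ 0) {c : ℕ}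
    (hc : c ≤ X.dim) {x : W.H X} (hx : x ∈ W.gr X (X.dim + c)) (h0 : (f ^ c) x = 0) : x = 0 := by
  obtain ⟨e, he, hef⟩ := exists_raise hg hD hHL hn hf hP hfP
    (Submodule.neg_mem _ (Submodule.smul_mem _ (2 : W.K) hf))
  obtain ⟨F, t, hF, -⟩ := exists_sl2 (W.isInternal X) (L := lop W X D)
    (by simpa using rop_opAlg.hom (rop_mulLeft (W := W) hD)) W_hbd hHL
  have hL : lop W X D ∈ part W X g 2 :=
    ⟨hg.lef, by simpa using rop_opAlg.hom (rop_mulLeft (W := W) hD)⟩
  have hFg : F ∈ part W X g (-2) := ⟨low_mem hg t hF, hF⟩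
  set H := bk e f with hH
  have hHp : H ∈ part W X g 0 := by
    have := part_lie hg he hf
    norm_num at this
    exact this
  have inj : ∀ a ∈ part W X g 2, bk f (bk f a) = 0 → a = 0 :=
    fun a ha h => inj_two hg hn hf hP hfP ha h
  have hmap1 : ∀ e ∈ part W X g 2, bk f (bk f e) ∈ part W X g (-2) := by
    intro e he
    have h1 := part_lie hg hf (part_lie hg hf he)
    norm_num at h1
    exact h1
  -- the bracket relations
  have hfH : bk H f = -((2 : W.K) • f) := by
    rw [bk_skew, lie_a hef]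
  have hx2 : ∀ a ∈ part W X g 2, bk H a = (2 : W.K) • a := by
    intro a ha
    have h1 : bk e a = 0 := lie_pos_pos hg he ha
    have h3 : bk f (bk f (bk f a)) = 0 := lie_neg_neg hg hf (hmap1 a ha)
    have h4 := lie_d hef h1 h3
    apply sub_eq_zero.1
    apply inj
    · refine Submodule.sub_mem _ ?_ (Submodule.smul_mem _ _ ha)
      have := part_lie hg hHp ha
      norm_num at this
      exact this
    · rw [bk_sub, bk_sub, h4, bk_smul, bk_smul, sub_self]
  have hy2 : ∀ y ∈ part W X g (-2), bk H y = -((2 : W.K) • y) := by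
    intro y hy
    obtain ⟨a, ha, rfl⟩ := exists_raise hg hD hHL hn hf hP hfP hy
    exact lie_c hef (lie_pos_pos hg he ha) (lie_neg_neg hg hf (hmap1 a ha))
  have tf : Sl2 H e f := by
    refine ⟨rfl, ?_, ?_⟩
    · have h1 := hx2 e he
      rw [bk_def] at h1
      rw [h1, two_smul, two_mul]
    · have h1 := hfH
      rw [bk_def] at h1
      rw [h1, two_smul, two_mul]
  -- the difference
  set δ : Module.End W.K (W.H X) := hop W X - H with hδ
  have comm2 : ∀ a ∈ part W X g 2, a * δ = δ * a := by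
    intro a ha
    have h1 : bk δ a = 0 := by
      rw [hδ, sub_bk, hx2 a ha, hop_lie ha.2]; push_cast; rw [sub_self]
    rw [bk_def] at h1
    exact (sub_eq_zero.1 h1).symm
  have comm2' : ∀ a ∈ part W X g (-2), a * δ = δ * a := by
    intro a ha
    have h1 : bk δ a = 0 := by
      rw [hδ, sub_bk, hy2 a ha, hop_lie ha.2]; push_cast; module
    rw [bk_def] at h1
    exact (sub_eq_zero.1 h1).symm
  have hpow : ∀ {a : Module.End W.K (W.H X)}, a * δ = δ * a → ∀ m, a * δ ^ m = δ ^ m * a := by
    intro a h m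
    exact (Commute.pow_right (show Commute a δ from h) m).eq
  have hnil : IsNilpotent δ := by
    apply isNilpotent_of_trace_pow
    intro r
    have h1 : δ ^ (r + 1) = bk (lop W X D) F * δ ^ r - bk e f * δ ^ r := by
      have h2 : bk (lop W X D) F = hop W X := t.ef
      rw [h2, ← sub_mul, pow_succ', ← hH]
    rw [h1, map_sub, trace_bk (hpow (comm2 _ hL) r), trace_bk (hpow (comm2 _ he) r), sub_zero]
  -- conclusion
  by_contra hx0
  obtain ⟨m, hm1, hm2⟩ : ∃ m, (δ ^ m) x ≠ 0 ∧ (δ ^ (m + 1)) x = 0 := by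
    classical
    obtain ⟨N, hN⟩ := hnil
    have hex : ∃ m, (δ ^ m) x = 0 := ⟨N, by rw [hN]; rfl⟩
    have h1 : Nat.find hex ≠ 0 := by
      intro h2
      have h3 := Nat.find_spec hex
      rw [h2] at h3
      exact hx0 (by simpa using h3)
    obtain ⟨m, hm⟩ := Nat.exists_eq_succ_of_ne_zero h1
    refine ⟨m, Nat.find_min hex (by omega), ?_⟩
    have h3 := Nat.find_spec hex
    rw [hm] at h3
    exact h3
  have hδ0 : IsHom (W.gr X) 0 δ := (isHom_scal _ _).sub hHp.2
  have hyg : (δ ^ m) x ∈ W.gr X (X.dim + c) := hom_mem (hδ0.pow m) hx (by simp)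
  have hHy : (-H) ((δ ^ m) x) = -(c : W.K) • (δ ^ m) x := by
    have h1 : H = hop W X - δ := by rw [hδ]; abel
    have h2 : δ ((δ ^ m) x) = 0 := by
      rw [← Module.End.mul_apply, ← pow_succ']; exact hm2
    have h3 : hop W X ((δ ^ m) x) = (c : W.K) • (δ ^ m) x := by
      rw [show hop W X ((δ ^ m) x) = ((node X.dim (X.dim + c) : ℚ) : W.K) • (δ ^ m) x from
        scal_apply (W.isInternal X) _ hyg]
      congr 1
      unfold node
      push_cast; ring
    rw [LinearMap.neg_apply, h1, LinearMap.sub_apply, h2, sub_zero, h3, neg_smul]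
  have h1 := Sl2.e_pow_inj tf.swap hHy hm1 le_rfl
  apply h1
  have h2 : f ^ c * δ ^ m = δ ^ m * f ^ c :=
    (Commute.pow_pow (show Commute f δ from comm2' f hf) c m).eq
  rw [← Module.End.mul_apply, h2, Module.End.mul_apply, h0, map_zero]

end

end Pool.Agent.N190.JL
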