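import Pool.Agent.N190.Opp.Defs
import Pool.Agent.H914R2.Graded

/-!
# Varieties of Jordan-Lefschetz type: statements
-/

open CategoryTheory AlgebraicGeometry

universe u v

namespace Pool.Agent.N190.JLS

open Pool.Agent.H914 Pool.Agent.N190.Opp VarClass Obj WeilCohomology

section

variable {K A B : Type v} [Field K] [Ring A] [Algebra K A] [Ring B] [Algebra K B]

/-- The space `g` of operators on the algebra `A` with graded pieces `G i` is a Lie algebra with a
grading in degrees `-2`, `0`, `2`: it is a linear subspace, closed under commutators, and each of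
its elements is the sum of elements `f`, `z`, `e` of `g` of degree `-2`, `0`, `2`, where `e` is the
multiplication by an element of `G 2`. -/
structure IsThreeGraded (G : ℕ → Submodule K A) (g : Set (A →ₗ[K] A)) : Prop where
  add : ∀ a ∈ g, ∀ b ∈ g, a + b ∈ g
  smul : ∀ c : K, ∀ a ∈ g, c • a ∈ g
  lie : ∀ a ∈ g, ∀ b ∈ g, a ∘ₗ b - b ∘ₗ a ∈ g
  split : ∀ a ∈ g, ∃ f ∈ g, ∃ z ∈ g, ∃ e ∈ g, IsHom G (-2) f ∧ IsHom G 0 z ∧
    (∃ x ∈ G 2, e = LinearMap.mulLeft K x) ∧ a = f + z + e

/-- The space `g` of operators on the algebra `A` with graded pieces `G i` and the linear form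
`∫` is a Lie algebra of Jordan-Lefschetz type of dimension `n` for the element `L`:
* it is a Lie algebra with a grading in degrees `-2`, `0`, `2`, as above;
* its elements `z` of degree zero satisfy `∫ z(x) y + ∫ x z(y) = 0`;
* it contains the multiplication by `L` and the operator `f` of degree `-2` with
  `L f(x) - f(L x) = (i - n) x` for `x` in `G i`. -/
structure IsJLAlgebra (G : ℕ → Submodule K A) (n : ℕ) (tr : A →ₗ[K] K) (L : A)
    (g : Set (A →ₗ[K] A)) : Prop where
  graded : IsThreeGraded G g
  skew : ∀ z ∈ g, IsHom G 0 z → ∀ x y, tr (z x * y) + tr (x * z y) = 0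
  lef : LinearMap.mulLeft K L ∈ g
  low : ∀ f, IsHom G (-2) f → (∀ i, ∀ x ∈ G i, L * f x - f (L * x) = ((i : K) - n) • x) → f ∈ g

/-- For `x ≠ 0` in `T` the product of `u x` with some element of `T'` is not zero. -/
def IsNonzeroOn (T : Submodule K A) (T' : Submodule K B) (u : A →ₗ[K] B) : Prop :=
  ∀ x ∈ T, (∀ y ∈ T', u x * y = 0) → x = 0

/-- The elements of `g` of degree `d`. -/
def degreePart (G : ℕ → Submodule K A) (g : Set (A →ₗ[K] A)) (d : ℤ) : Set (A →ₗ[K] A) :=
  {a | a ∈ g ∧ IsHom G d a}

/-- In `g` there are as many independent elements of degree `-2` as of degree `2`. -/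
def Balanced (G : ℕ → Submodule K A) (g : Set (A →ₗ[K] A)) : Prop :=
  Set.finrank K (degreePart G g (-2)) = Set.finrank K (degreePart G g 2)

/-- The elements of degree `2` of `g` are the multiplications by multiples of `L`, and there is an
element of degree `-2` which is not zero. -/
def RankOne (G : ℕ → Submodule K A) (L : A) (g : Set (A →ₗ[K] A)) : Prop :=
  (∀ e ∈ degreePart G g 2, ∃ c : K, e = LinearMap.mulLeft K (c • L)) ∧
    ∃ f ∈ degreePart G g (-2), f ≠ 0

/-- The composition of the operators in the list `l`. -/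
def compose (l : List (A →ₗ[K] A)) : A →ₗ[K] A := l.foldr LinearMap.comp LinearMap.id

/-- The operator `v` is a left inverse of `u`, and `u a v` lies in `g'` for `a` in `g`. -/
def Carries (g : Set (A →ₗ[K] A)) (g' : Set (B →ₗ[K] B)) (u : A →ₗ[K] B) (v : B →ₗ[K] A) : Prop :=
  (∀ x, v (u x) = x) ∧ ∀ a ∈ g, u ∘ₗ a ∘ₗ v ∈ g'

end

variable {k : Type u} [Field k] {𝒱 : VarClass k} {ops : CycleOps 𝒱}

/-- The linear maps from `H(X)` to `H(Y)`. -/
abbrev Mp (W : WeilCohomology.{u, v} ops) (X Y : 𝒱.Obj) : Type v := W.H X →ₗ[W.K] W.H Y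

/-- The space `g` of operators on the total cohomology `H(X)` is a Lie algebra of
Jordan-Lefschetz type for the divisor `D`. -/
def IsJordanLefschetz (W : WeilCohomology.{u, v} ops) (X : 𝒱.Obj) (D : X.Cycles)
    (g : Set (Mp W X X)) : Prop :=
  IsJLAlgebra (W.gr X) X.dim (W.tr X) (W.cl X D) g

/-- The operator `u : H(X) → H(Y)` has non-zero rank: for `x ≠ 0` in the one-dimensional space
`H^(2 dim X)(X)` the component of `u x` in `H^0(Y)` is not zero, that is, the product of `u x` with
some class in `H^(2 dim Y)(Y)` is not zero. -/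
def NonzeroRank (W : WeilCohomology.{u, v} ops) (X Y : 𝒱.Obj) (u : Mp W X Y) : Prop :=
  IsNonzeroOn (W.gr X (2 * X.dim)) (W.gr Y (2 * Y.dim)) u

/-- The operator `u : H(X) → H(Y)` is algebraic: it is induced by a combination, with coefficients
in the coefficient field, of algebraic cycles of all codimensions on `X × Y`. -/
def IsAlgebraic (W : WeilCohomology.{u, v} ops) (X Y : 𝒱.Obj) (u : Mp W X Y) : Prop :=
  ∃ γ ∈ mixedCycles W (X.prod Y), W.corr γ = u

/-- The algebraic elements of `g`. -/
def algebraicElements (W : WeilCohomology.{u, v} ops) (X : 𝒱.Obj) (g : Set (Mp W X X)) :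
    Set (Mp W X X) := {a | a ∈ g ∧ IsAlgebraic W X X a}

/-- The elements of the list `l` are algebraic elements of `g`, and their product has non-zero
rank. -/
def MovesTop (W : WeilCohomology.{u, v} ops) (X : 𝒱.Obj) (g : Set (Mp W X X))
    (l : List (Mp W X X)) : Prop :=
  (∀ w ∈ l, w ∈ algebraicElements W X g) ∧ NonzeroRank W X X (compose l)

/-- In `g` there are as many independent algebraic elements of degree `-2` as of degree `2`. -/
def IsBalanced (W : WeilCohomology.{u, v} ops) (X : 𝒱.Obj) (g : Set (Mp W X X)) : Prop :=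
  Balanced (W.gr X) (algebraicElements W X g)

/-- The algebraic elements of degree `2` of `g` are the multiples of `L`, and there is an
algebraic element of degree `-2` which is not zero. -/
def IsRankOne (W : WeilCohomology.{u, v} ops) (X : 𝒱.Obj) (D : X.Cycles)
    (g : Set (Mp W X X)) : Prop :=
  RankOne (W.gr X) (W.cl X D) (algebraicElements W X g)

/-- The operators `u` and `v` are algebraic, of non-zero rank, mutually inverse, and exchange the
Lie algebras `g` and `g'`. (For example the operators given by the Mukai vectors of an equivalence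
of the derived categories of two hyperkähler varieties whose kernel has non-zero rank, and of its
inverse, with the Looijenga-Lunts-Verbitsky Lie algebras.) -/
structure IsLieEquivalence (W : WeilCohomology.{u, v} ops) (X Y : 𝒱.Obj)
    (g : Set (Mp W X X)) (g' : Set (Mp W Y Y)) (u : Mp W X Y) (v : Mp W Y X) : Prop where
  alg : IsAlgebraic W X Y u
  alg' : IsAlgebraic W Y X v
  rank : NonzeroRank W X Y u
  rank' : NonzeroRank W Y X v
  carries : Carries g g' u v
  carries' : Carries g' g v u

end Pool.Agent.N190.JLS
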