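import Pool.Agent.N190.JL.Main

/-!
# The Lefschetz standard conjecture for varieties of Jordan-Lefschetz type
-/

open CategoryTheory AlgebraicGeometry Finset

universe u v

namespace Pool.Agent.N190.JL

open Pool.Agent.H914 Pool.Agent.N190.Opp VarClass Obj WeilCohomology Pool.Agent.W498.Dom

variable {k : Type u} [Field k] {𝒱 : VarClass k} {ops : CycleOps 𝒱}
  {W : WeilCohomology.{u, v} ops} {X Y : 𝒱.Obj} {D : X.Cycles}
  {g : Submodule W.K (Module.End W.K (W.H X))}

lemma span_le_mixed (q : ℤ) : spanCycles W X q ≤ mixedCycles W X := by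
  apply Submodule.span_le.2
  rintro c ⟨p, -, z, hz, rfl⟩
  exact Submodule.mem_iSup_of_mem p (Submodule.subset_span ⟨p, rfl, z, hz, rfl⟩)

lemma exists_mixed {u : W.H X →ₗ[W.K] W.H Y} (hu : u ∈ KMix W X Y) :
    ∃ γ ∈ mixedCycles W (X.prod Y), W.corr γ = u := by
  refine Submodule.iSup_induction _
    (motive := fun u => ∃ γ ∈ mixedCycles W (X.prod Y), W.corr γ = u) hu ?_ ?_ ?_
  · intro d u hu
    obtain ⟨γ, hγ, rfl⟩ := mem_KOp_iff.1 hu
    exact ⟨γ, span_le_mixed _ hγ, rfl⟩
  · exact ⟨0, Submodule.zero_mem _, corr_zero W⟩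
  · rintro a b ⟨γ, hγ, rfl⟩ ⟨δ, hδ, rfl⟩
    exact ⟨γ + δ, Submodule.add_mem _ hγ hδ, corr_add W _ _⟩

/-- The algebraic elements of `g`. -/
def algE (W : WeilCohomology.{u, v} ops) (X : 𝒱.Obj)
    (g : Submodule W.K (Module.End W.K (W.H X))) : Submodule W.K (Module.End W.K (W.H X)) where
  carrier := {a | a ∈ g ∧ IsAlgebraic W X X a}
  add_mem' := by
    rintro _ _ ⟨ha, γ, hγ, rfl⟩ ⟨hb, δ, hδ, rfl⟩
    exact ⟨Submodule.add_mem _ ha hb, γ + δ, Submodule.add_mem _ hγ hδ, corr_add W _ _⟩
  zero_mem' := ⟨Submodule.zero_mem _, 0, Submodule.zero_mem _, corr_zero W⟩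
  smul_mem' := by
    rintro c _ ⟨ha, γ, hγ, rfl⟩
    exact ⟨Submodule.smul_mem _ c ha, c • γ, Submodule.smul_mem _ c hγ, corr_smul W _ _⟩

/-- The algebraic elements of `g` which are homogeneous of degree `d`. -/
def algP (W : WeilCohomology.{u, v} ops) (X : 𝒱.Obj)
    (g : Submodule W.K (Module.End W.K (W.H X))) (d : ℤ) :
    Submodule W.K (Module.End W.K (W.H X)) where
  carrier := {a | a ∈ algE W X g ∧ IsHom (W.gr X) d a}
  add_mem' := fun ha hb => ⟨Submodule.add_mem _ ha.1 hb.1, ha.2.add hb.2⟩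
  zero_mem' := ⟨Submodule.zero_mem _, isHom_zero d⟩
  smul_mem' := fun c _ ha => ⟨Submodule.smul_mem _ c ha.1, ha.2.smul c⟩

lemma algebraicPart_eq (d : ℤ) : algebraicPart W X g d = algP W X g d := by
  rw [algebraicPart]
  apply le_antisymm
  · apply Submodule.span_le.2
    rintro a ⟨h1, h2, h3⟩
    exact ⟨⟨h1, h2⟩, h3⟩
  · rintro a ⟨⟨h1, h2⟩, h3⟩
    exact Submodule.subset_span ⟨h1, h2, h3⟩

/-- The leading terms. -/
lemma step {w f z e : Module.End W.K (W.H X)} (hf : IsHom (W.gr X) (-2) f)
    (hz : IsHom (W.gr X) 0 z) (he : IsHom (W.gr X) 2 e) (hw : w = f + z + e) {i : ℕ} (hi : 2 ≤ i)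
    {y : W.H X} (hy : y ∈ upper W X i) :
    w y ∈ upper W X (i - 2) ∧
      proj (W.isInternal X) (i - 2) (w y) = f (proj (W.isInternal X) i y) := by
  refine Submodule.iSup_induction _ (motive := fun y => w y ∈ upper W X (i - 2) ∧
      proj (W.isInternal X) (i - 2) (w y) = f (proj (W.isInternal X) i y)) hy ?_ ?_ ?_
  · rintro ⟨j, hj⟩ y hy
    have hy' : y ∈ W.gr X j := hy
    have h1 : f y ∈ W.gr X (j - 2) := hom_mem hf hy' (by omega)
    have h2 : z y ∈ W.gr X j := hom_mem hz hy' (by simp)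
    have h3 : e y ∈ W.gr X (j + 2) := hom_mem he hy' (by push_cast; ring)
    have h4 : w y = f y + z y + e y := by rw [hw]; rfl
    constructor
    · rw [h4]
      exact Submodule.add_mem _ (Submodule.add_mem _ (gr_le_upper (by omega) h1)
        (gr_le_upper (by omega) h2)) (gr_le_upper (by omega) h3)
    · rw [h4, map_add, map_add, proj_ne _ h2 (by omega), proj_ne _ h3 (by omega), add_zero,
        add_zero]
      by_cases hij : j = i
      · subst hij
        rw [proj_same _ h1, proj_same _ hy']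
      · rw [proj_ne _ h1 (by omega), proj_ne _ hy' hij, map_zero]
  · rw [map_zero]
    exact ⟨Submodule.zero_mem _, by simp⟩
  · rintro a b ⟨h1, h2⟩ ⟨h3, h4⟩
    rw [map_add]
    exact ⟨Submodule.add_mem _ h1 h3, by rw [map_add, h2, h4, ← map_add, ← map_add]⟩

lemma leading {w f z e : Module.End W.K (W.H X)} (hf : IsHom (W.gr X) (-2) f)
    (hz : IsHom (W.gr X) 0 z) (he : IsHom (W.gr X) 2 e) (hw : w = f + z + e)
    {x : W.H X} (hx : x ∈ W.gr X (2 * X.dim)) {m : ℕ} (hm : m ≤ X.dim) :
    (w ^ m) x ∈ upper W X (2 * X.dim - 2 * m) ∧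
      proj (W.isInternal X) (2 * X.dim - 2 * m) ((w ^ m) x) = (f ^ m) x := by
  induction m with
  | zero =>
    rw [pow_zero, pow_zero]
    exact ⟨gr_le_upper (by omega) hx, proj_same _ (by simpa using hx)⟩
  | succ m ih =>
    obtain ⟨h1, h2⟩ := ih (by omega)
    obtain ⟨h3, h4⟩ := step hf hz he hw (by omega) h1
    rw [h2] at h4
    rw [pow_succ', pow_succ', Module.End.mul_apply, Module.End.mul_apply,
      show 2 * X.dim - 2 * (m + 1) = 2 * X.dim - 2 * m - 2 by omega]
    exact ⟨h3, h4⟩

lemma isHom_cup {x : W.H X} (hx : x ∈ W.gr X 2) : IsHom (W.gr X) 2 (LinearMap.mulLeft W.K x) := by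
  intro i y hy
  by_cases hi : 0 ≤ i
  · lift i to ℕ using hi
    rw [grZ_natCast] at hy
    have h1 := W.mul_mem hx hy
    rw [show ((i : ℤ) + 2) = ((2 + i : ℕ) : ℤ) by push_cast; ring, grZ_natCast]
    exact h1
  · rw [grZ_of_neg (by omega)] at hy
    rw [(Submodule.mem_bot _).1 hy, map_zero]
    exact Submodule.zero_mem _

/-- If the top cohomology vanishes, everything vanishes. -/
lemma eq_zero_of_top (h : ∀ x ∈ W.gr X (2 * X.dim), x = 0) (a : W.H X) : a = 0 := by
  apply W.nondeg
  intro b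
  refine gr_induction (W.isInternal X) (p := fun c => W.tr X c = 0) ?_ ?_ (a * b)
  · intro i c hc
    by_cases hi : i = 2 * X.dim
    · subst hi
      rw [h c hc, map_zero]
    · exact W.tr_eq_zero hc hi
  · intro c d hc hd
    rw [map_add, hc, hd, add_zero]

/-- A lowering operator in `g` of full rank gives the conjecture. -/
theorem lefschetzB_of_lower (hg : IsJordanLefschetz W X D g) (hD : X.IsCyc 1 D)
    (hHL : HardLefschetz W X D) {f : Module.End W.K (W.H X)} (hf : f ∈ part W X g (-2))
    (hfk : f ∈ KOp W X X (-1)) {P : W.H X} (hP : P ∈ W.gr X (2 * X.dim))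
    (hfP : (f ^ X.dim) P ≠ 0) : LefschetzB W X D := by
  apply lefschetzB_of_injC hD hHL
  intro c hc1 hc2
  refine ⟨f ^ c, KOp.cast (kop_pow hfk c) (by ring), fun a ha h0 => ?_⟩
  by_cases hn : 2 ≤ X.dim
  · exact lowering_inj hg hD hHL hn hf hP hfP hc2 ha h0
  · have h2 : c = X.dim := by omega
    subst h2
    have hP0 : P ≠ 0 := by rintro rfl; exact hfP (map_zero _)
    have h1 := top_span hP hP0 (y := a) (by rwa [two_mul])
    rw [h1, map_smul] at h0
    rcases smul_eq_zero.1 h0 with h3 | h3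
    · rw [h1, h3, zero_smul]
    · exact absurd h3 hfP

lemma comp_kop {w a : Module.End W.K (W.H X)} (hw : w ∈ KMix W X X) {d : ℤ}
    (ha : IsHom (W.gr X) (2 * d) a)
    (h : ∀ i j : ℕ, (j : ℤ) = i + 2 * d → ∀ x ∈ W.gr X i, proj (W.isInternal X) j (w x) = a x) :
    a ∈ KOp W X X d := by
  obtain ⟨v, hv, hvu⟩ := KMix.exists_component hw d
  have h1 : a = v := by
    apply gr_ext (W.isInternal X)
    intro i y hy
    by_cases hi : 0 ≤ (i : ℤ) + 2 * d
    · obtain ⟨j, hj⟩ := Int.eq_ofNat_of_zero_le hi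
      rw [hvu i j hj.symm y hy, h i j hj.symm y hy]
    · rw [hom_zero ha hy (Or.inl (by omega))]
      have h3 := KOp.isHom hv i y (by rw [grZ_natCast]; exact hy)
      rw [grZ_of_neg (by omega)] at h3
      exact ((Submodule.mem_bot _).1 h3).symm
  rw [h1]; exact hv

lemma alg_of_kop {a : Module.End W.K (W.H X)} {d : ℤ} (ha : a ∈ g) (hk : a ∈ KOp W X X d) :
    a ∈ algE W X g := by
  obtain ⟨γ, hγ, rfl⟩ := mem_KOp_iff.1 hk
  exact ⟨ha, γ, span_le_mixed _ hγ, rfl⟩

lemma alg_mix {a : Module.End W.K (W.H X)} (ha : a ∈ algE W X g) :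
    a ∈ KMix W X X := by
  obtain ⟨-, γ, hγ, rfl⟩ := ha
  exact corr_mix hγ

/-- Homogeneous algebraic elements are given by cycles of one codimension. -/
lemma part_kop {a : Module.End W.K (W.H X)} {d : ℤ}
    (ha : a ∈ algP W X g (2 * d)) : a ∈ KOp W X X d := by
  apply comp_kop (alg_mix ha.1) ha.2
  intro i j hij x hx
  exact proj_same _ (hom_mem ha.2 hx hij)

lemma alg_part {a : Module.End W.K (W.H X)} {d : ℤ} (ha : a ∈ algP W X g d) :
    a ∈ part W X g d := ⟨ha.1.1, ha.2⟩

lemma alg_lie (hg : IsJordanLefschetz W X D g) {a b : Module.End W.K (W.H X)}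
    (ha : a ∈ algE W X g) (hb : b ∈ algE W X g) :
    bk a b ∈ algE W X g := by
  have h1 : bk a b ∈ KMix W X X :=
    Submodule.sub_mem _ (KMix.mul (alg_mix ha) (alg_mix hb)) (KMix.mul (alg_mix hb) (alg_mix ha))
  exact ⟨hg.lie a ha.1 b hb.1, exists_mixed h1⟩

lemma algPart_lie (hg : IsJordanLefschetz W X D g) {d e : ℤ} {a b : Module.End W.K (W.H X)}
    (ha : a ∈ algP W X g d) (hb : b ∈ algP W X g e) :
    bk a b ∈ algP W X g (d + e) :=
  ⟨alg_lie hg ha.1 hb.1, isHom_lie ha.2 hb.2⟩

lemma algPart_cast {d e : ℤ} {a : Module.End W.K (W.H X)} (ha : a ∈ algP W X g d)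
    (h : d = e) : a ∈ algP W X g e := h ▸ ha

/-- The homogeneous components of an algebraic element are algebraic. -/
lemma alg_split (hg : IsJordanLefschetz W X D g) {w : Module.End W.K (W.H X)}
    (hw : w ∈ algE W X g) :
    ∃ f ∈ algP W X g (-2), ∃ z ∈ algP W X g 0, ∃ e ∈ algP W X g 2,
      w = f + z + e := by
  obtain ⟨f, hf, z, hz, e, he, hf2, hz2, ⟨x, hx, hex⟩, hsum⟩ := hg.split w hw.1
  have he2 : IsHom (W.gr X) 2 e := by rw [hex]; exact isHom_cup hx
  have hwk := alg_mix hw
  have hval : ∀ y, w y = f y + z y + e y := fun y => by rw [hsum]; rfl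
  have kf : f ∈ KOp W X X (-1) := by
    apply comp_kop hwk (by simpa using hf2)
    intro i j hij y hy
    rw [hval, map_add, map_add, proj_same _ (hom_mem hf2 hy (by omega)),
      proj_ne _ (hom_mem (j := i) hz2 hy (by simp)) (by omega),
      proj_ne _ (hom_mem (j := i + 2) he2 hy (by push_cast; ring)) (by omega), add_zero, add_zero]
  have kz : z ∈ KOp W X X 0 := by
    apply comp_kop hwk (by simpa using hz2)
    intro i j hij y hy
    have hf3 : proj (W.isInternal X) j (f y) = 0 := by
      by_cases hi : 2 ≤ i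
      · exact proj_ne _ (hom_mem (j := i - 2) hf2 hy (by omega)) (by omega)
      · rw [hom_zero hf2 hy (Or.inl (by omega)), map_zero]
    rw [hval, map_add, map_add, hf3, proj_same _ (hom_mem hz2 hy (by omega)),
      proj_ne _ (hom_mem (j := i + 2) he2 hy (by push_cast; ring)) (by omega), zero_add, add_zero]
  have ke : e ∈ KOp W X X 1 := by
    apply comp_kop hwk (by simpa using he2)
    intro i j hij y hy
    have hf3 : proj (W.isInternal X) j (f y) = 0 := by
      by_cases hi : 2 ≤ i
      · exact proj_ne _ (hom_mem (j := i - 2) hf2 hy (by omega)) (by omega)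
      · rw [hom_zero hf2 hy (Or.inl (by omega)), map_zero]
    rw [hval, map_add, map_add, hf3, proj_ne _ (hom_mem (j := i) hz2 hy (by simp)) (by omega),
      proj_same _ (hom_mem he2 hy (by omega)), zero_add, zero_add]
  exact ⟨f, ⟨alg_of_kop hf kf, hf2⟩, z, ⟨alg_of_kop hz kz, hz2⟩, e, ⟨alg_of_kop he ke, he2⟩, hsum⟩

lemma kop_hom {F : Module.End W.K (W.H X)} (hF : F ∈ KOp W X X (-1)) :
    IsHom (W.gr X) (-2) F := by
  intro i a ha
  have h1 := KOp.isHom hF i a ha
  rwa [show i + 2 * (-1) = i + -2 by ring] at h1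

/-- The lowering operator has full rank. -/
lemma rank_lower {F : Module.End W.K (W.H X)} (t : Sl2 (hop W X) (lop W X D) F)
    (hFh : IsHom (W.gr X) (-2) F) : NonzeroRank W X X (F ^ X.dim) := by
  intro x hx h0
  have h1 : (F ^ X.dim) x ∈ W.gr X 0 := hom_mem (hFh.pow X.dim) hx (by push_cast; ring)
  have h2 : (F ^ X.dim) x = 0 := by
    rw [← h0, proj_same _ h1]
  by_contra hx0
  have h3 : (-hop W X) x = -(X.dim : W.K) • x := by
    rw [LinearMap.neg_apply, show hop W X x = ((node X.dim (2 * X.dim) : ℚ) : W.K) • x from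
      scal_apply (W.isInternal X) _ hx, neg_smul]
    congr 2
    unfold node
    push_cast; ring
  exact Sl2.e_pow_inj t.swap h3 hx0 le_rfl h2

theorem exists_element (hg : IsJordanLefschetz W X D g) (hD : X.IsCyc 1 D)
    (hHL : HardLefschetz W X D) (hB : LefschetzB W X D) :
    ∃ F ∈ algP W X g (-2), Sl2 (hop W X) (lop W X D) F := by
  obtain ⟨F, hF, t⟩ := Pool.Agent.W498.Dom.exists_lower (Pool.Agent.W534.kop_L hD) hHL
    (inj_of_lefschetzB hD hHL hB)
  exact ⟨F, ⟨alg_of_kop (low_mem hg t (kop_hom hF)) hF, kop_hom hF⟩, t⟩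

/-- The conjecture holds if the lowering operator is algebraic. -/
theorem lefschetzB_of_sl2 (hg : IsJordanLefschetz W X D g) (hD : X.IsCyc 1 D)
    (hHL : HardLefschetz W X D) {F : Module.End W.K (W.H X)}
    (hF : F ∈ algP W X g (-2)) (t : Sl2 (hop W X) (lop W X D) F) :
    LefschetzB W X D := by
  have hFk : F ∈ KOp W X X (-1) := part_kop (d := -1) (algPart_cast hF (by norm_num))
  apply lefschetzB_of_injC hD hHL
  intro c hc1 hc2
  refine ⟨F ^ c, KOp.cast (kop_pow hFk c) (by ring), fun a ha h0 => ?_⟩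
  by_contra ha0
  have h3 : (-hop W X) a = -(c : W.K) • a := by
    rw [LinearMap.neg_apply, show hop W X a = ((node X.dim (X.dim + c) : ℚ) : W.K) • a from
      scal_apply (W.isInternal X) _ ha, neg_smul]
    congr 2
    unfold node
    push_cast; ring
  exact Sl2.e_pow_inj t.swap h3 ha0 le_rfl h0

/-- If the square of `ad L` hits a multiple of `L` in the algebraic part of degree `-2`, the
conjecture holds. -/
theorem lefschetzB_of_ad (hg : IsJordanLefschetz W X D g) (hD : X.IsCyc 1 D)
    (hHL : HardLefschetz W X D) {F : Module.End W.K (W.H X)}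
    (hF : F ∈ algP W X g (-2))
    (hF2 : bk (lop W X D) (bk (lop W X D) F) = -((2 : W.K) • lop W X D)) :
    LefschetzB W X D := by
  obtain ⟨F', t, hF', -⟩ := exists_sl2 (W.isInternal X) (L := lop W X D)
    (by simpa using rop_opAlg.hom (rop_mulLeft (W := W) hD)) W_hbd hHL
  have h1 : F - F' = 0 := by
    apply inj_neg hg hD t hF' (Submodule.sub_mem _ (alg_part hF) ⟨low_mem hg t hF', hF'⟩)
    have h2 : bk (lop W X D) F' = hop W X := t.ef
    have h3 : bk (lop W X D) (hop W X) = -((2 : W.K) • lop W X D) := by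
      rw [bk_skew, hop_lie (d := 2) (by simpa using rop_opAlg.hom (rop_mulLeft (W := W) hD))]
      push_cast; rfl
    rw [bk_sub, bk_sub, hF2, h2, h3, sub_self]
  rw [sub_eq_zero.1 h1] at hF
  exact lefschetzB_of_sl2 hg hD hHL hF t

lemma lop_alg (hg : IsJordanLefschetz W X D g) (hD : X.IsCyc 1 D) :
    lop W X D ∈ algP W X g 2 :=
  ⟨alg_of_kop hg.lef (kop_L hD), by simpa using rop_opAlg.hom (rop_mulLeft (W := W) hD)⟩

/-- The vectors which are not moved to degree zero by lowering operators. -/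
def Nul (W : WeilCohomology.{u, v} ops) (X : 𝒱.Obj)
    (g : Submodule W.K (Module.End W.K (W.H X))) (x : W.H X) : Prop :=
  ∀ l : List (Module.End W.K (W.H X)), (∀ f ∈ l, f ∈ algP W X g (-2)) →
    proj (W.isInternal X) 0 (l.prod x) = 0

lemma nul_f {x : W.H X} (hx : Nul W X g x) {f : Module.End W.K (W.H X)}
    (hf : f ∈ algP W X g (-2)) : Nul W X g (f x) := by
  intro l hl
  have h1 := hx (l ++ [f]) (by
    intro a ha
    rcases List.mem_append.1 ha with h | h
    · exact hl a h
    · rw [List.mem_singleton.1 h]; exact hf)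
  rwa [List.prod_append, List.prod_singleton, Module.End.mul_apply] at h1

lemma nul_add {x y : W.H X} (hx : Nul W X g x) (hy : Nul W X g y) : Nul W X g (x + y) := by
  intro l hl
  rw [map_add, map_add, hx l hl, hy l hl, add_zero]

lemma nul_z (hg : IsJordanLefschetz W X D g) {x : W.H X} (hx : Nul W X g x)
    {z : Module.End W.K (W.H X)} (hz : z ∈ algP W X g 0) : Nul W X g (z x) := by
  intro l
  induction l using List.reverseRecOn generalizing x with
  | nil =>
    intro _
    have h1 := hx [] (by simp)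
    rw [List.prod_nil, Module.End.one_apply] at h1 ⊢
    have h2 := congrArg (fun T => T x) (hz.2.proj_comm (W.isInternal X) 0)
    simp only [Module.End.mul_apply] at h2
    rw [h2, h1, map_zero]
  | append_singleton l f ih =>
    intro hl
    have hf : f ∈ algP W X g (-2) := hl f (by simp)
    have hl' : ∀ a ∈ l, a ∈ algP W X g (-2) := fun a ha => hl a (by simp [ha])
    have h1 : f (z x) = z (f x) + bk f z x := by
      rw [bk_def, LinearMap.sub_apply, Module.End.mul_apply, Module.End.mul_apply]; abel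
    rw [List.prod_append, List.prod_singleton, Module.End.mul_apply, h1, map_add, map_add,
      ih (nul_f hx hf) hl', zero_add]
    have h2 : bk f z ∈ algP W X g (-2) := algPart_cast (algPart_lie hg hf hz) (by ring)
    exact nul_f hx h2 l hl'

lemma nul_e (hg : IsJordanLefschetz W X D g) {x : W.H X} (hx : Nul W X g x)
    {e : Module.End W.K (W.H X)} (he : e ∈ algP W X g 2) : Nul W X g (e x) := by
  intro l
  induction l using List.reverseRecOn generalizing x with
  | nil =>
    intro _
    rw [List.prod_nil, Module.End.one_apply]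
    refine gr_induction (W.isInternal X) (p := fun x => proj (W.isInternal X) 0 (e x) = 0) ?_ ?_ x
    · intro i y hy
      exact proj_ne _ (hom_mem (j := i + 2) he.2 hy (by push_cast; ring)) (by omega)
    · intro a b ha hb
      rw [map_add, map_add, ha, hb, add_zero]
  | append_singleton l f ih =>
    intro hl
    have hf : f ∈ algP W X g (-2) := hl f (by simp)
    have hl' : ∀ a ∈ l, a ∈ algP W X g (-2) := fun a ha => hl a (by simp [ha])
    have h1 : f (e x) = e (f x) + bk f e x := by
      rw [bk_def, LinearMap.sub_apply, Module.End.mul_apply, Module.End.mul_apply]; abel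
    rw [List.prod_append, List.prod_singleton, Module.End.mul_apply, h1, map_add, map_add,
      ih (nul_f hx hf) hl', zero_add]
    have h2 : bk f e ∈ algP W X g 0 := algPart_cast (algPart_lie hg hf he) (by ring)
    exact nul_z hg hx h2 l hl'

lemma nul_prod (hg : IsJordanLefschetz W X D g) {x : W.H X} (hx : Nul W X g x)
    (l : List (Module.End W.K (W.H X))) (hl : ∀ w ∈ l, w ∈ algE W X g) :
    Nul W X g (l.prod x) := by
  induction l with
  | nil => simpa using hx
  | cons w l ih =>
    have h1 := ih (fun a ha => hl a (List.mem_cons_of_mem _ ha))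
    obtain ⟨f, hf, z, hz, e, he, hw⟩ := alg_split hg (hl w List.mem_cons_self)
    rw [List.prod_cons, Module.End.mul_apply, hw, LinearMap.add_apply, LinearMap.add_apply]
    exact nul_add (nul_add (nul_f h1 hf) (nul_z hg h1 hz)) (nul_e hg h1 he)

lemma isHom_list {d : ℤ} (l : List (Module.End W.K (W.H X)))
    (hl : ∀ a ∈ l, IsHom (W.gr X) d a) : IsHom (W.gr X) (l.length * d) l.prod := by
  induction l with
  | nil => simpa using isHom_one
  | cons a l ih =>
    have h1 := (hl a List.mem_cons_self).mul (ih (fun b hb => hl b (List.mem_cons_of_mem _ hb)))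
    rw [List.prod_cons]
    exact isHom_cast h1 (by rw [List.length_cons]; push_cast; ring)

theorem lefschetzB_of_product (hg : IsJordanLefschetz W X D g) (hD : X.IsCyc 1 D)
    (hHL : HardLefschetz W X D) (h : HasProduct W X g) : LefschetzB W X D := by
  obtain ⟨l, hl, hr⟩ := h
  by_cases hP : ∃ P ∈ W.gr X (2 * X.dim), P ≠ 0
  swap
  · push Not at hP
    apply lefschetzB_of_injC hD hHL
    intro c _ _
    exact ⟨0, Submodule.zero_mem _, fun a _ _ => eq_zero_of_top hP a⟩
  obtain ⟨P, hP, hP0⟩ := hP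
  by_contra hB
  have h1 : ∀ f ∈ algP W X g (-2), (f ^ X.dim) P = 0 := by
    intro f hf
    by_contra h2
    exact hB (lefschetzB_of_lower hg hD hHL (alg_part hf)
      (part_kop (d := -1) (algPart_cast hf (by norm_num))) hP h2)
  apply hP0
  apply hr P hP
  have h2 : Nul W X g P := by
    intro l hl
    have hh := isHom_list (W := W) (X := X) (d := -2) l (fun a ha => (hl a ha).2)
    rcases lt_trichotomy l.length X.dim with h3 | h3 | h3
    · exact proj_ne _ (hom_mem (j := 2 * X.dim - 2 * l.length) hh hP (by push_cast; omega))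
        (by omega)
    · have h4 := polar (S := algP W X g (-2)) (P := P) (n := X.dim)
        (fun a ha b hb => by
          have h5 := lie_neg_neg hg (alg_part ha) (alg_part hb)
          rw [bk_def] at h5
          exact sub_eq_zero.1 h5) h1 l hl h3.le 0 (Submodule.zero_mem _)
      rw [h3, Nat.sub_self, pow_zero, Module.End.one_apply] at h4
      rw [h4, map_zero]
    · rw [hom_zero hh hP (Or.inl (by push_cast; omega)), map_zero]
  have h3 := nul_prod hg h2 l hl [] (by simp)
  rwa [List.prod_nil, Module.End.one_apply] at h3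

/-- **The criteria.** -/
theorem tfae (hg : IsJordanLefschetz W X D g) (hD : X.IsCyc 1 D)
    (hHL : HardLefschetz W X D) : List.TFAE [LefschetzB W X D, HasElement W X g,
      HasProduct W X g, IsBalanced W X g] := by
  have hLa := lop_alg hg hD
  have m1 : ∀ y ∈ algP W X g (-2),
      bk (lop W X D) (bk (lop W X D) y) ∈ algP W X g 2 := fun y hy =>
    algPart_cast (algPart_lie hg hLa (algPart_lie hg hLa hy)) (by norm_num)
  obtain ⟨F', t', hF', -⟩ := exists_sl2 (W.isInternal X) (L := lop W X D)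
    (by simpa using rop_opAlg.hom (rop_mulLeft (W := W) hD)) W_hbd hHL
  have i1 : ∀ y ∈ algP W X g (-2), bk (lop W X D) (bk (lop W X D) y) = 0 → y = 0 :=
    fun y hy h => inj_neg hg hD t' hF' (alg_part hy) h
  tfae_have 1 → 2 := by
    intro hB
    obtain ⟨F, hF, t⟩ := exists_element hg hD hHL hB
    exact ⟨F, hF.1.1, hF.1.2, rank_lower t hF.2⟩
  tfae_have 2 → 3 := by
    rintro ⟨w, hw, hwa, hr⟩
    refine ⟨List.replicate X.dim w, fun a ha => ?_, ?_⟩
    · rw [List.eq_of_mem_replicate ha]; exact ⟨hw, hwa⟩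
    · rwa [List.prod_replicate]
  tfae_have 3 → 1 := lefschetzB_of_product hg hD hHL
  tfae_have 1 → 4 := by
    intro hB
    obtain ⟨F, hF, t⟩ := exists_element hg hD hHL hB
    rw [IsBalanced, algebraicPart_eq, algebraicPart_eq]
    apply le_antisymm
    · exact finrank_le_of_inj (A := adl (lop W X D) ∘ₗ adl (lop W X D)) m1 i1
    · exact finrank_le_of_inj (A := adl F ∘ₗ adl F)
        (fun y hy => algPart_cast (algPart_lie hg hF (algPart_lie hg hF hy)) (by norm_num))
        (fun y hy h => inj_pos hg hD t hF.2 (alg_part hy) h)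
  tfae_have 4 → 1 := by
    intro hfin
    rw [IsBalanced, algebraicPart_eq, algebraicPart_eq] at hfin
    obtain ⟨F, hF, hF2⟩ := surj_of_finrank (A := adl (lop W X D) ∘ₗ adl (lop W X D)) m1 i1 hfin
      (-((2 : W.K) • lop W X D)) (Submodule.neg_mem _ (Submodule.smul_mem _ _ hLa))
    exact lefschetzB_of_ad hg hD hHL hF hF2
  tfae_finish

/-- If `L` spans the algebraic part of degree two, one algebraic element of degree `-2` is
enough. -/
theorem lefschetzB_of_picard_one (hg : IsJordanLefschetz W X D g) (hD : X.IsCyc 1 D)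
    (hHL : HardLefschetz W X D)
    (h1 : algebraicPart W X g 2 ≤ Submodule.span W.K {lop W X D})
    (h2 : algebraicPart W X g (-2) ≠ ⊥) : LefschetzB W X D := by
  rw [algebraicPart_eq] at h1 h2
  obtain ⟨F, hF, hF0⟩ := Submodule.exists_mem_ne_zero_of_ne_bot h2
  have hLa := lop_alg hg hD
  obtain ⟨F', t', hF', -⟩ := exists_sl2 (W.isInternal X) (L := lop W X D)
    (by simpa using rop_opAlg.hom (rop_mulLeft (W := W) hD)) W_hbd hHL
  have m1 : bk (lop W X D) (bk (lop W X D) F) ∈ algP W X g 2 :=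
    algPart_cast (algPart_lie hg hLa (algPart_lie hg hLa hF)) (by norm_num)
  obtain ⟨c, hc⟩ := Submodule.mem_span_singleton.1 (h1 m1)
  have hc0 : c ≠ 0 := by
    rintro rfl
    rw [zero_smul] at hc
    exact hF0 (inj_neg hg hD t' hF' (alg_part hF) hc.symm)
  apply lefschetzB_of_ad hg hD hHL (Submodule.smul_mem _ (-2 / c) hF)
  rw [bk_smul, bk_smul, ← hc, smul_smul, div_mul_cancel₀ _ hc0, neg_smul]

/-- One direction of the theorem on equivalences. -/
theorem lefschetzB_of_equiv {E : Y.Cycles} {g' : Submodule W.K (Module.End W.K (W.H Y))}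
    (hdim : X.dim = Y.dim) (hg : IsJordanLefschetz W X D g) (hD : X.IsCyc 1 D)
    (hHL : HardLefschetz W X D) (hg' : IsJordanLefschetz W Y E g') (hE : Y.IsCyc 1 E)
    (hHL' : HardLefschetz W Y E) {u : W.H X →ₗ[W.K] W.H Y} {v : W.H Y →ₗ[W.K] W.H X}
    (h : IsLieEquivalence W X Y g g' u v) : LefschetzB W X D := by
  obtain ⟨γ, hγ, hγu⟩ := h.alg
  obtain ⟨δ, hδ, hδv⟩ := h.alg'
  set w : Module.End W.K (W.H X) := v ∘ₗ (lop W Y E : W.H Y →ₗ[W.K] W.H Y) ∘ₗ u with hw
  have hwg : w ∈ g := h.conj' _ hg'.lef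
  have hwk : w ∈ KMix W X X := by
    rw [hw, ← hγu, ← hδv]
    exact KMix.comp (corr_mix hδ) (KMix.comp (KOp.mix (kop_L hE)) (corr_mix hγ))
  have hpow : ∀ m x, (w ^ m) x = v (((lop W Y E) ^ m) (u x)) := by
    intro m
    induction m with
    | zero =>
      intro x
      have := congrArg (fun T => T x) h.left
      simp only [LinearMap.comp_apply, LinearMap.id_apply] at this
      rw [pow_zero, pow_zero, Module.End.one_apply, Module.End.one_apply, this]
    | succ m ih =>
      intro x
      have h2 : w x = v (lop W Y E (u x)) := rfl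
      have h1 := congrArg (fun T => T (lop W Y E (u x))) h.right
      simp only [LinearMap.comp_apply, LinearMap.id_apply] at h1
      rw [pow_succ, Module.End.mul_apply, ih, h2, h1, pow_succ, Module.End.mul_apply]
  have hgoal : HasElement W X g → LefschetzB W X D := ((tfae hg hD hHL).out 1 0).1
  apply hgoal
  refine ⟨w, hwg, exists_mixed hwk, ?_⟩
  intro x hx h0
  rw [hpow] at h0
  apply h.rank x hx
  set y := u x with hy
  have hk : ∀ y, ((lop W Y E) ^ X.dim) y =
      ((lop W Y E) ^ X.dim) (proj (W.isInternal Y) 0 y) := by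
    intro y
    refine gr_induction (W.isInternal Y) (p := fun y => ((lop W Y E) ^ X.dim) y =
      ((lop W Y E) ^ X.dim) (proj (W.isInternal Y) 0 y)) ?_ ?_ y
    · intro i y hy
      by_cases hi : i = 0
      · subst hi
        rw [proj_same _ hy]
      · rw [proj_ne _ hy hi, map_zero]
        have h1 := Lpow_mem (W := W) hE (c := X.dim) (i := i) rfl hy
        rw [W.gr_eq_bot Y _ (by omega)] at h1
        exact (Submodule.mem_bot _).1 h1
    · intro a b ha hb
      rw [map_add, ha, hb, map_add, map_add]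
  rw [hk] at h0
  have hp : proj (W.isInternal Y) 0 y ∈ W.gr Y 0 := proj_mem _ _ _
  have h1 := Lpow_mem (W := W) hE (c := X.dim) (i := 0) (j := 2 * Y.dim) (by omega) hp
  have h2 := h.rank' _ h1 h0
  exact Lpow_inj hHL' (c := X.dim) (by omega) (by rwa [hdim, Nat.sub_self]) h2

/-- The equivalence in the other direction. -/
lemma IsLieEquivalence.symm {g' : Submodule W.K (Module.End W.K (W.H Y))}
    {u : W.H X →ₗ[W.K] W.H Y} {v : W.H Y →ₗ[W.K] W.H X}
    (h : IsLieEquivalence W X Y g g' u v) : IsLieEquivalence W Y X g' g v u where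
  alg := h.alg'
  alg' := h.alg
  left := h.right
  right := h.left
  conj := h.conj'
  conj' := h.conj
  rank := h.rank'
  rank' := h.rank

end Pool.Agent.N190.JL
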